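import Pool.Agent.LibZT69.Y5
import Pool.Agent.LibZT69.Y6

set_option autoImplicit false

namespace Pool.Agent.Results.MP_28c842_nt.AdditiveBasis

/-- The value of the continued fraction `[a_1, ..., a_k]`. -/
def cf : List ℕ → ℚ
  | [] => 0
  | a :: l => 1 / ((a : ℚ) + cf l)

/-- The set of the `b` with `1 ≤ b < d`, prime to `d`, for which `b / d = [a_1, ..., a_k]` with all
`a_j` in `A` and with `a_k ≥ 2`. -/
def num (A : Finset ℕ) (d : ℕ) : Set ℕ :=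
  {b | 1 ≤ b ∧ b < d ∧ b.Coprime d ∧ ∃ (l : List ℕ) (h : l ≠ []),
    (∀ x ∈ l, x ∈ A) ∧ 2 ≤ l.getLast h ∧ (b : ℚ) / d = cf l}

/-- The set of the integers `d ≥ 2` for which some `b` with `1 ≤ b < d`, prime to `d`, has
`b / d = [a_1, ..., a_k]` with all `a_j` in `A` and with `a_k ≥ 2`. -/
def D (A : Finset ℕ) : Set ℕ := {d | 2 ≤ d ∧ (num A d).Nonempty}

/-- The Gauss map: the fractional part of `1 / x`. -/
noncomputable def gauss (x : ℝ) : ℝ := Int.fract x⁻¹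

/-- The set of the irrational numbers in `(0, 1)` all of whose partial quotients are in `A`; the
`(n + 1)`-st partial quotient of `x` is the integer part of `1 / gauss^[n] x`. -/
def E (A : Finset ℕ) : Set ℝ :=
  {x | 0 < x ∧ x < 1 ∧ Irrational x ∧ ∀ n : ℕ, ∃ k ∈ A, ⌊(gauss^[n] x)⁻¹⌋ = (k : ℤ)}

/-- The set of the sums of `k` elements of `D A`. -/
def sums (A : Finset ℕ) (k : ℕ) : Set ℕ :=
  {n | ∃ d : Fin k → ℕ, (∀ i, d i ∈ D A) ∧ ∑ i, d i = n}

/-- The set of the `k`-tuples of pairs `(d, b)` with `b ∈ num A d` for which the sum of the `d` is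
`n`. -/
def reps (A : Finset ℕ) (k n : ℕ) : Set (Fin k → ℕ × ℕ) :=
  {t | (∀ i, (t i).2 ∈ num A (t i).1) ∧ ∑ i, (t i).1 = n}

private theorem cf_eq (l : List ℕ) : cf l = Pool.Agent.LibNW69.cf l := by
  induction l with
  | nil => rfl
  | cons a l ih => simp only [cf, Pool.Agent.LibNW69.cf, ih]

private theorem num_eq (A : Finset ℕ) (d : ℕ) : num A d = Pool.Agent.LibZD69.numer A d := by
  ext b
  simp only [num, Pool.Agent.LibZD69.numer, cf_eq]

private theorem D_eq (A : Finset ℕ) : D A = Pool.Agent.LibNW69.D A := by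
  ext d
  simp only [D, num, Pool.Agent.LibNW69.D, Set.Nonempty, Set.mem_setOf_eq, cf_eq]

private theorem E_eq (A : Finset ℕ) : E A = Pool.Agent.LibNW69.E A := rfl

private theorem reps_eq (A : Finset ℕ) (k n : ℕ) : reps A k n = Pool.Agent.LibZT69.rp A k n := by
  ext t
  simp only [reps, Pool.Agent.LibZT69.rp, num_eq]

private theorem mem_sums (A : Finset ℕ) (k n : ℕ)
    (h : 1 ≤ (Pool.Agent.LibZT69.rp A k n).ncard) : n ∈ sums A k := by
  rw [← reps_eq] at h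
  have hne : (reps A k n).Nonempty := by
    rw [Set.nonempty_iff_ne_empty]
    intro he
    rw [he, Set.ncard_empty] at h
    omega
  obtain ⟨t, ht, hs⟩ := hne
  refine ⟨fun i => (t i).1, fun i => ⟨?_, ⟨(t i).2, ht i⟩⟩, hs⟩
  have h1 := (ht i).1
  have h2 := (ht i).2.1
  show 2 ≤ (t i).1
  omega

private theorem one_le (A : Finset ℕ) (k n : ℕ) (c x : ℝ) (hc : 0 < c) (hn : 1 ≤ n)
    (h : c * (n : ℝ) ^ x ≤ ((Pool.Agent.LibZT69.rp A k n).ncard : ℝ)) :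
    1 ≤ (Pool.Agent.LibZT69.rp A k n).ncard := by
  have hn0 : (0 : ℝ) < n := by exact_mod_cast hn
  have h1 : (0 : ℝ) < ((Pool.Agent.LibZT69.rp A k n).ncard : ℝ) :=
    lt_of_lt_of_le (mul_pos hc (Real.rpow_pos_of_pos hn0 _)) h
  exact_mod_cast h1

private theorem tendsto_sub (S S' : Set ℕ) (h : ∀ n, 1 ≤ n → n ∈ S → n ∈ S')
    (hS : Filter.Tendsto (fun N : ℕ => ({n : ℕ | n ≤ N ∧ n ∈ S}.ncard : ℝ) / N) Filter.atTop
      (nhds 1)) :
    Filter.Tendsto (fun N : ℕ => ({n : ℕ | n ≤ N ∧ n ∈ S'}.ncard : ℝ) / N) Filter.atTop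
      (nhds 1) := by
  have h1 : Filter.Tendsto (fun N : ℕ => ({n : ℕ | n ≤ N ∧ n ∈ S}.ncard : ℝ) / N - 1 / (N : ℝ))
      Filter.atTop (nhds 1) := by
    have := hS.sub tendsto_one_div_atTop_nhds_zero_nat
    simpa using this
  have h2 : Filter.Tendsto (fun N : ℕ => 1 + 1 / (N : ℝ)) Filter.atTop (nhds 1) := by
    have := (tendsto_const_nhds (x := (1 : ℝ))).add tendsto_one_div_atTop_nhds_zero_nat
    simpa using this
  have hfin : ∀ (T : Set ℕ) (N : ℕ), {n : ℕ | n ≤ N ∧ n ∈ T}.Finite := fun T N =>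
    (Set.finite_Iic N).subset fun n hn => hn.1
  refine tendsto_of_tendsto_of_tendsto_of_le_of_le' h1 h2 ?_ ?_
  · filter_upwards [Filter.eventually_ge_atTop 1] with N hN
    have hN0 : (0 : ℝ) < N := by exact_mod_cast hN
    rw [div_sub_div_same, div_le_div_iff_of_pos_right hN0, sub_le_iff_le_add]
    have h3 : {n : ℕ | n ≤ N ∧ n ∈ S} ⊆ insert 0 {n : ℕ | n ≤ N ∧ n ∈ S'} := by
      intro n hn
      rcases Nat.eq_zero_or_pos n with h0 | h0
      · exact Set.mem_insert_iff.2 (Or.inl h0)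
      · exact Set.mem_insert_iff.2 (Or.inr ⟨hn.1, h n h0 hn.2⟩)
    have h4 := (Set.ncard_le_ncard h3 ((hfin S' N).insert 0)).trans (Set.ncard_insert_le _ _)
    exact_mod_cast h4
  · filter_upwards [Filter.eventually_ge_atTop 1] with N hN
    have hN0 : (0 : ℝ) < N := by exact_mod_cast hN
    rw [div_le_iff₀ hN0]
    have h3 : {n : ℕ | n ≤ N ∧ n ∈ S'} ⊆ (Finset.range (N + 1) : Set ℕ) := by
      intro n hn
      rw [Finset.coe_range]
      exact Nat.lt_succ_of_le hn.1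
    have h4 := Set.ncard_le_ncard h3 (Finset.finite_toSet _)
    rw [Set.ncard_coe_finset, Finset.card_range] at h4
    have h5 : (({n : ℕ | n ≤ N ∧ n ∈ S'}.ncard : ℕ) : ℝ) ≤ (N : ℝ) + 1 := by exact_mod_cast h4
    have h6 : (1 + 1 / (N : ℝ)) * N = N + 1 := by field_simp
    linarith

/-- Let `A` be a finite set of positive integers which contains `1` and `2`, and let `δ` be the
Hausdorff dimension of `E A`. (1) If `δ > 3 / 4`, then `D A` has density one, and for every `ε > 0`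
there is `c > 0` such that for all large `N` at least `(1 - ε) N` of the `d ≤ N` have at least
`c d ^ (2 δ - 1)` numerators. (2) For `k ≥ 2` and `δ > 1 / 2 + 1 / (4 k)` there is `c > 0` such that
almost every `n` is a sum of `k` elements of `D A`, with at least `c n ^ (2 k δ - 1)` representations.
(3) For `k ≥ 2` and `δ > 1 / 2 + 1 / (2 k)` there is `c > 0` such that every large `n` is a sum of `k`
elements of `D A`, with at least `c n ^ (2 k δ - 1)` representations. (4) `D {1, 2, 3, 4}` has density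
one, almost every `n` is a sum of two elements of `D {1, 2, 3}`, every large `n` is a sum of three
elements of `D {1, 2, 3}`, and a sum of 17 elements of `D {1, 2}`. -/
theorem result :
    (∀ A : Finset ℕ, (∀ x ∈ A, 1 ≤ x) → 1 ∈ A → 2 ∈ A →
      (3 / 4 < dimH (E A) →
        Filter.Tendsto (fun N : ℕ => ({d : ℕ | d ∈ D A ∧ d ≤ N}.ncard : ℝ) / N) Filter.atTop
          (nhds 1) ∧
        ∀ ε : ℝ, 0 < ε → ∃ c : ℝ, 0 < c ∧ ∃ N₀ : ℕ, ∀ N : ℕ, N₀ ≤ N →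
          (1 - ε) * N ≤ ({d : ℕ | 2 ≤ d ∧ d ≤ N ∧
            c * (d : ℝ) ^ (2 * (dimH (E A)).toReal - 1) ≤ ((num A d).ncard : ℝ)}.ncard : ℝ)) ∧
      ∀ k : ℕ, 2 ≤ k →
        (ENNReal.ofReal (1 / 2 + 1 / (4 * (k : ℝ))) < dimH (E A) →
          ∃ c : ℝ, 0 < c ∧
            Filter.Tendsto (fun N : ℕ => ({n : ℕ | n ≤ N ∧ n ∈ sums A k ∧
              c * (n : ℝ) ^ (2 * (k : ℝ) * (dimH (E A)).toReal - 1) ≤
                ((reps A k n).ncard : ℝ)}.ncard : ℝ) / N) Filter.atTop (nhds 1)) ∧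
        (ENNReal.ofReal (1 / 2 + 1 / (2 * (k : ℝ))) < dimH (E A) →
          ∃ c : ℝ, 0 < c ∧ ∃ N₀ : ℕ, ∀ n : ℕ, N₀ ≤ n → n ∈ sums A k ∧
            c * (n : ℝ) ^ (2 * (k : ℝ) * (dimH (E A)).toReal - 1) ≤
              ((reps A k n).ncard : ℝ))) ∧
    Filter.Tendsto (fun N : ℕ => ({d : ℕ | d ∈ D {1, 2, 3, 4} ∧ d ≤ N}.ncard : ℝ) / N)
      Filter.atTop (nhds 1) ∧
    Filter.Tendsto (fun N : ℕ => ({n : ℕ | n ≤ N ∧ n ∈ sums {1, 2, 3} 2}.ncard : ℝ) / N)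
      Filter.atTop (nhds 1) ∧
    (∃ N₀ : ℕ, ∀ n : ℕ, N₀ ≤ n → n ∈ sums {1, 2, 3} 3) ∧
    (∃ N₀ : ℕ, ∀ n : ℕ, N₀ ≤ n → n ∈ sums {1, 2} 17) := by
  refine ⟨fun A hA h1 h2 => ⟨fun h => ⟨?_, fun ε hε => ?_⟩, fun k hk => ⟨fun h => ?_, fun h => ?_⟩⟩,
    ?_, ?_, ?_, ?_⟩
  · rw [E_eq] at h
    have h0 := Pool.Agent.LibZD69.main_dim A hA h1 h2 h
    rw [← D_eq] at h0
    exact h0
  · rw [E_eq] at h
    obtain ⟨c, hc, N₀, h0⟩ := Pool.Agent.LibZD69.main_dim2 A hA h1 h2 h ε hε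
    refine ⟨c, hc, N₀, fun N hN => ?_⟩
    have h3 := h0 N hN
    simp only [← num_eq, ← E_eq] at h3
    exact h3
  · rw [E_eq] at h
    obtain ⟨c, hc, h0⟩ := Pool.Agent.LibZT69.aa_dim A hA h1 h2 k hk h
    refine ⟨c, hc, ?_⟩
    rw [E_eq]
    refine tendsto_sub {n : ℕ | c * (n : ℝ) ^ (2 * (k : ℝ) *
      (dimH (Pool.Agent.LibNW69.E A)).toReal - 1) ≤
        ((Pool.Agent.LibZT69.rp A k n).ncard : ℝ)} {n : ℕ | n ∈ sums A k ∧
      c * (n : ℝ) ^ (2 * (k : ℝ) * (dimH (Pool.Agent.LibNW69.E A)).toReal - 1) ≤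
        ((reps A k n).ncard : ℝ)} (fun n hn h3 => ⟨mem_sums A k n ?_, ?_⟩) h0
    · exact one_le A k n c _ hc hn h3
    · rw [reps_eq]
      exact h3
  · rw [E_eq] at h
    obtain ⟨c, hc, N₀, h0⟩ := Pool.Agent.LibZT69.all_dim A hA h1 h2 k hk h
    refine ⟨c, hc, N₀ + 1, fun n hn => ?_⟩
    have h3 := h0 n (by omega)
    rw [E_eq, reps_eq]
    exact ⟨mem_sums A k n (one_le A k n c _ hc (by omega) h3), h3⟩
  · have h0 := Pool.Agent.LibZD69.main_four
    rw [← D_eq] at h0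
    exact h0
  · exact tendsto_sub {n : ℕ | 1 ≤ (Pool.Agent.LibZT69.rp {1, 2, 3} 2 n).ncard} _
      (fun n _ h3 => mem_sums _ _ n h3) Pool.Agent.LibZT69.three_aa
  · obtain ⟨N₀, h0⟩ := Pool.Agent.LibZT69.three_all
    exact ⟨N₀, fun n hn => mem_sums _ _ n (h0 n hn)⟩
  · obtain ⟨N₀, h0⟩ := Pool.Agent.LibZT69.two_all
    exact ⟨N₀, fun n hn => mem_sums _ _ n (h0 n hn)⟩

end Pool.Agent.Results.MP_28c842_nt.AdditiveBasis
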