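import Pool.Agent.LibNW69.CLO

set_option autoImplicit false

namespace Pool.Agent.Results.MP_28c842_nt.DensityExponent

/-- The value of the continued fraction `[a_1, ..., a_k]`. -/
def cf : List ℕ → ℚ
  | [] => 0
  | a :: l => 1 / ((a : ℚ) + cf l)

/-- The set of the integers `d ≥ 2` for which some `b` with `1 ≤ b < d`, prime to `d`, has
`b / d = [a_1, ..., a_k]` with all `a_j` in `A` and with `a_k ≥ 2`. -/
def D (A : Finset ℕ) : Set ℕ :=
  {d | 2 ≤ d ∧ ∃ b : ℕ, 1 ≤ b ∧ b < d ∧ b.Coprime d ∧ ∃ (l : List ℕ) (h : l ≠ []),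
    (∀ x ∈ l, x ∈ A) ∧ 2 ≤ l.getLast h ∧ (b : ℚ) / d = cf l}

/-- The Gauss map: the fractional part of `1 / x`. -/
noncomputable def gauss (x : ℝ) : ℝ := Int.fract x⁻¹

/-- The set of the irrational numbers in `(0, 1)` all of whose partial quotients are in `A`; the
`(n + 1)`-st partial quotient of `x` is the integer part of `1 / gauss^[n] x`. -/
def E (A : Finset ℕ) : Set ℝ :=
  {x | 0 < x ∧ x < 1 ∧ Irrational x ∧ ∀ n : ℕ, ∃ k ∈ A, ⌊(gauss^[n] x)⁻¹⌋ = (k : ℤ)}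

private theorem cf_eq (l : List ℕ) : cf l = Pool.Agent.LibNW69.cf l := by
  induction l with
  | nil => rfl
  | cons a l ih => simp only [cf, Pool.Agent.LibNW69.cf, ih]

private theorem D_eq (A : Finset ℕ) : D A = Pool.Agent.LibNW69.D A := by
  ext d
  simp only [D, Pool.Agent.LibNW69.D, cf_eq]

private theorem E_eq (A : Finset ℕ) : E A = Pool.Agent.LibNW69.E A := rfl

/-- For every finite set `A` of positive integers for which the Hausdorff dimension `δ` of `E A` is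
larger than `1 / 2` the set `D A` has at least `N ^ (min 1 (2 δ - 1 / 2) - ε)` elements up to `N`, and
the set `D_3 = D {1, 2, 3}` has at least `N ^ (91 / 100 - ε)`. -/
theorem result :
    (∀ A : Finset ℕ, (∀ x ∈ A, 1 ≤ x) → 1 / 2 < dimH (E A) → ∀ ε : ℝ, 0 < ε →
      ∃ N₀ : ℕ, ∀ N : ℕ, N₀ ≤ N →
        (N : ℝ) ^ (min 1 (2 * (dimH (E A)).toReal - 1 / 2) - ε) ≤
          ({d : ℕ | d ∈ D A ∧ d ≤ N}.ncard : ℝ)) ∧
    (∀ ε : ℝ, 0 < ε → ∃ N₀ : ℕ, ∀ N : ℕ, N₀ ≤ N →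
      (N : ℝ) ^ (91 / 100 - ε) ≤ ({d : ℕ | d ∈ D {1, 2, 3} ∧ d ≤ N}.ncard : ℝ)) := by
  refine ⟨fun A hA h ε hε => ?_, fun ε hε => ?_⟩
  · rw [E_eq] at h
    obtain ⟨N₀, h0⟩ := Pool.Agent.LibNW69.main_dim A hA h ε hε
    refine ⟨N₀, fun N hN => ?_⟩
    have h1 := h0 N hN
    rw [← E_eq, ← D_eq] at h1
    exact h1
  · obtain ⟨N₀, h0⟩ := Pool.Agent.LibNW69.main_three ε hε
    refine ⟨N₀, fun N hN => ?_⟩
    have h1 := h0 N hN
    rw [← D_eq] at h1
    exact h1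

end Pool.Agent.Results.MP_28c842_nt.DensityExponent
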