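import Mathlib

set_option autoImplicit false

namespace Pool.Agent.Results.MP_28c842_nt.Multiples

/-- The value of the continued fraction `[a_1, ..., a_k]`. -/
def cf : List ℕ → ℚ
  | [] => 0
  | a :: l => 1 / ((a : ℚ) + cf l)

/-- The set of the integers `d ≥ 2` for which some `b` with `1 ≤ b < d`, prime to `d`, has
`b / d = [a_1, ..., a_k]` with all `a_j` between `1` and `A` and with `a_k ≥ 2`. -/
def D (A : ℕ) : Set ℕ :=
  {d | 2 ≤ d ∧ ∃ b : ℕ, 1 ≤ b ∧ b < d ∧ b.Coprime d ∧ ∃ (l : List ℕ) (h : l ≠ []),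
    (∀ a ∈ l, 1 ≤ a ∧ a ≤ A) ∧ 2 ≤ l.getLast h ∧ (b : ℚ) / d = cf l}

/-! ### Continuants -/

/-- denominator and numerator -/
private def K : List ℕ → ℕ × ℕ
  | [] => (1, 0)
  | a :: l => (a * (K l).1 + (K l).2, (K l).1)

private theorem K_nil : K [] = (1, 0) := rfl

private theorem K_cons (a : ℕ) (l : List ℕ) : K (a :: l) = (a * (K l).1 + (K l).2, (K l).1) := rfl

private theorem KR (α γ : List ℕ) :
    (K (α.reverse ++ γ)).1 = (K α).1 * (K γ).1 + (K α).2 * (K γ).2 := by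
  induction α generalizing γ with
  | nil => simp [K_nil]
  | cons a α ih =>
    rw [List.reverse_cons, List.append_assoc, List.singleton_append, ih, K_cons, K_cons]
    ring

private theorem K_pos (l : List ℕ) (h : ∀ a ∈ l, 1 ≤ a) : 1 ≤ (K l).1 := by
  induction l with
  | nil => exact le_rfl
  | cons a l ih =>
    rw [K_cons]
    have h1 := ih fun b hb => h b (List.mem_cons_of_mem _ hb)
    have h2 := h a List.mem_cons_self
    have h3 : 1 ≤ a * (K l).1 := Nat.mul_pos h2 h1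
    show 1 ≤ a * (K l).1 + (K l).2
    omega

private theorem K_le (l : List ℕ) (h : ∀ a ∈ l, 1 ≤ a) : (K l).2 ≤ (K l).1 := by
  cases l with
  | nil => exact Nat.zero_le _
  | cons a l =>
    rw [K_cons]
    have h2 := h a List.mem_cons_self
    have h3 : (K l).1 ≤ a * (K l).1 := Nat.le_mul_of_pos_left _ h2
    show (K l).1 ≤ a * (K l).1 + (K l).2
    omega

private theorem K_coprime (l : List ℕ) : Nat.Coprime (K l).2 (K l).1 := by
  induction l with
  | nil => exact Nat.coprime_zero_left 1 |>.2 rfl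
  | cons a l ih =>
    rw [K_cons]
    show Nat.Coprime (K l).1 (a * (K l).1 + (K l).2)
    rw [Nat.add_comm, Nat.coprime_add_mul_right_right]
    exact ih.symm

private theorem K_num_pos (l : List ℕ) (h : ∀ a ∈ l, 1 ≤ a) (hl : l ≠ []) : 1 ≤ (K l).2 := by
  cases l with
  | nil => exact absurd rfl hl
  | cons a l => exact K_pos l fun b hb => h b (List.mem_cons_of_mem _ hb)

private theorem K_lt (l : List ℕ) (h : ∀ a ∈ l, 1 ≤ a) (hl : l ≠ []) (h2 : 2 ≤ l.getLast hl) :
    (K l).2 < (K l).1 := by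
  cases l with
  | nil => exact absurd rfl hl
  | cons a l =>
    rw [K_cons]
    show (K l).1 < a * (K l).1 + (K l).2
    by_cases hn : l = []
    · subst hn
      rw [List.getLast_singleton] at h2
      simp only [K_nil]
      omega
    · have h3 := K_num_pos l (fun b hb => h b (List.mem_cons_of_mem _ hb)) hn
      have h4 := h a List.mem_cons_self
      have h5 : (K l).1 ≤ a * (K l).1 := Nat.le_mul_of_pos_left _ h4
      omega

private theorem cf_eq (l : List ℕ) (h : ∀ a ∈ l, 1 ≤ a) : cf l = ((K l).2 : ℚ) / (K l).1 := by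
  induction l with
  | nil => simp [cf, K_nil]
  | cons a l ih =>
    have h1 := K_pos l fun b hb => h b (List.mem_cons_of_mem _ hb)
    have h2 := K_pos (a :: l) h
    have h3 : ((K l).1 : ℚ) ≠ 0 := by positivity
    rw [cf, ih fun b hb => h b (List.mem_cons_of_mem _ hb)]
    rw [K_cons] at h2 ⊢
    have h4 : (((a * (K l).1 + (K l).2 : ℕ)) : ℚ) ≠ 0 := by
      have : (0 : ℚ) < ((a * (K l).1 + (K l).2 : ℕ) : ℚ) := by exact_mod_cast h2
      exact this.ne'
    show 1 / ((a : ℚ) + ((K l).2 : ℚ) / (K l).1) = ((K l).1 : ℚ) / ((a * (K l).1 + (K l).2 : ℕ) : ℚ)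
    have h5 : (a : ℚ) + ((K l).2 : ℚ) / (K l).1 = ((a * (K l).1 + (K l).2 : ℕ) : ℚ) / (K l).1 := by
      push_cast
      field_simp
    rw [h5, one_div_div]

private theorem mem_D (A : ℕ) (l : List ℕ) (hl : l ≠ []) (h : ∀ a ∈ l, 1 ≤ a ∧ a ≤ A)
    (h2 : 2 ≤ l.getLast hl) : (K l).1 ∈ D A := by
  have h1 : ∀ a ∈ l, 1 ≤ a := fun a ha => (h a ha).1
  have h3 := K_num_pos l h1 hl
  have h4 := K_lt l h1 hl h2
  refine ⟨by omega, (K l).2, h3, h4, K_coprime l, l, hl, h, h2, (cf_eq l h1).symm⟩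

/-! ### The tokens -/

/-- `den u * num v - num u * den v` -/
private def X (u v : List ℕ) : ℤ := ((K u).1 : ℤ) * (K v).2 - ((K u).2 : ℤ) * (K v).1

private theorem X_append (P u v : List ℕ) : |X (P ++ u) (P ++ v)| = |X u v| := by
  induction P with
  | nil => rfl
  | cons a P ih =>
    rw [← ih]
    have h : X (a :: P ++ u) (a :: P ++ v) = - X (P ++ u) (P ++ v) := by
      simp only [X, List.cons_append, K_cons]
      push_cast
      ring
    rw [h, abs_neg]

/-- the tokens -/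
private def tok : Fin 5 → List ℕ
  | 0 => [3, 1]
  | 1 => [1, 3, 1]
  | 2 => [2, 1, 1]
  | 3 => [1, 2, 1, 1]
  | 4 => [1, 1, 1, 1]

/-- the middle words -/
private def mid : Fin 5 → Fin 5 → List ℕ
  | 0, 1 => [1, 1, 1, 2, 1]
  | 0, 2 => [3]
  | 0, 3 => [1, 1, 1, 1, 1, 1]
  | 0, 4 => [1, 1, 2, 1]
  | 1, 0 => [1, 2, 1, 1, 1]
  | 1, 2 => [1, 2, 2, 1]
  | 1, 3 => [3]
  | 1, 4 => [1, 1, 2]
  | 2, 0 => [3]
  | 2, 1 => [1, 2, 2, 1]
  | 2, 3 => [1, 2, 1, 1, 1]
  | 2, 4 => [1, 3, 1]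
  | 3, 0 => [1, 1, 1, 1, 1, 1]
  | 3, 1 => [3]
  | 3, 2 => [1, 1, 1, 2, 1]
  | 3, 4 => [1, 3]
  | 4, 0 => [1, 2, 1, 1]
  | 4, 1 => [2, 1, 1]
  | 4, 2 => [1, 3, 1]
  | 4, 3 => [3, 1]
  | _, _ => []

private theorem tok_digits (t : Fin 5) : ∀ a ∈ tok t, 1 ≤ a ∧ a ≤ 3 := by
  fin_cases t <;> simp [tok]

private theorem mid_digits (t t' : Fin 5) : ∀ a ∈ mid t t', 1 ≤ a ∧ a ≤ 3 := by
  fin_cases t <;> fin_cases t' <;> simp [mid]

private theorem glue (t t' : Fin 5) (h : t ≠ t') (α β : List ℕ) :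
    |X (tok t ++ α) (tok t' ++ β)| = ((K (α.reverse ++ (mid t t' ++ β))).1 : ℤ) := by
  rw [KR, abs_eq (Int.natCast_nonneg _)]
  fin_cases t <;> fin_cases t' <;>
    first
    | exact absurd rfl h
    | (left
       simp only [X, tok, mid, K_cons, List.cons_append, List.nil_append, Fin.zero_eta,
         Fin.mk_one, Fin.reduceFinMk]
       push_cast
       ring1)
    | (right
       simp only [X, tok, mid, K_cons, List.cons_append, List.nil_append, Fin.zero_eta,
         Fin.mk_one, Fin.reduceFinMk]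
       push_cast
       ring1)

/-! ### Words -/

/-- the digits are between `1` and `3` -/
private def Dig (l : List ℕ) : Prop := ∀ a ∈ l, 1 ≤ a ∧ a ≤ 3

private theorem Dig.cons {a : ℕ} {l : List ℕ} (h : Dig (a :: l)) : (1 ≤ a ∧ a ≤ 3) ∧ Dig l :=
  ⟨h a List.mem_cons_self, fun b hb => h b (List.mem_cons_of_mem _ hb)⟩

private theorem Dig.append {l l' : List ℕ} (h : Dig l) (h' : Dig l') : Dig (l ++ l') := by
  intro a ha
  rw [List.mem_append] at ha
  exact ha.elim (h a) (h' a)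

private theorem dig_two : Dig [2] := by
  intro a ha
  rw [List.mem_singleton] at ha
  omega

private theorem dig_tok (w : List (Fin 5)) : Dig (w.flatMap tok) := by
  intro a ha
  rw [List.mem_flatMap] at ha
  obtain ⟨t, -, ht⟩ := ha
  exact tok_digits t a ht

/-- the value of a word is between `1 / 4` and `4 / 5` -/
private theorem ratio (b : List ℕ) (hb : Dig b) :
    1 ≤ (K (b ++ [2])).1 ∧ (K (b ++ [2])).1 ≤ 4 * (K (b ++ [2])).2 ∧
      5 * (K (b ++ [2])).2 ≤ 4 * (K (b ++ [2])).1 := by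
  induction b with
  | nil => simp [K_cons, K_nil]
  | cons a b ih =>
    obtain ⟨h1, h2⟩ := hb.cons
    obtain ⟨i1, i2, i3⟩ := ih h2
    rw [List.cons_append, K_cons]
    generalize (K (b ++ [2])).1 = u at i1 i2 i3 ⊢
    generalize (K (b ++ [2])).2 = v at i1 i2 i3 ⊢
    obtain ⟨ha1, ha2⟩ := h1
    show 1 ≤ a * u + v ∧ a * u + v ≤ 4 * u ∧ 5 * u ≤ 4 * (a * u + v)
    interval_cases a <;> omega

private theorem X_bound (b b' : List ℕ) (hb : Dig b) (hb' : Dig b') :
    |(X (b ++ [2]) (b' ++ [2]) : ℝ)| ≤ 11 / 20 * ((K (b ++ [2])).1 * (K (b' ++ [2])).1) := by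
  obtain ⟨-, h1, h2⟩ := ratio b hb
  obtain ⟨-, h3, h4⟩ := ratio b' hb'
  have n1 : (0 : ℝ) ≤ (K (b ++ [2])).1 := Nat.cast_nonneg _
  have n3 : (0 : ℝ) ≤ (K (b' ++ [2])).1 := Nat.cast_nonneg _
  have g1 : ((K (b ++ [2])).1 : ℝ) ≤ 4 * (K (b ++ [2])).2 := by exact_mod_cast h1
  have g2 : 5 * ((K (b ++ [2])).2 : ℝ) ≤ 4 * (K (b ++ [2])).1 := by exact_mod_cast h2
  have g3 : ((K (b' ++ [2])).1 : ℝ) ≤ 4 * (K (b' ++ [2])).2 := by exact_mod_cast h3
  have g4 : 5 * ((K (b' ++ [2])).2 : ℝ) ≤ 4 * (K (b' ++ [2])).1 := by exact_mod_cast h4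
  simp only [X]
  push_cast
  rw [abs_le]
  constructor <;> nlinarith [mul_le_mul_of_nonneg_left g1 n3, mul_le_mul_of_nonneg_left g2 n3,
    mul_le_mul_of_nonneg_left g3 n1, mul_le_mul_of_nonneg_left g4 n1]

/-- Two words which begin with different digits have different values. -/
private theorem X_ne (a a' : ℕ) (h : a ≠ a') (b b' : List ℕ) (hb : Dig b) (hb' : Dig b') :
    X (a :: (b ++ [2])) (a' :: (b' ++ [2])) ≠ 0 := by
  obtain ⟨h0, h1, h2⟩ := ratio b hb
  obtain ⟨h0', h3, h4⟩ := ratio b' hb'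
  simp only [X, K_cons]
  push_cast
  generalize (K (b ++ [2])).1 = u at *
  generalize (K (b ++ [2])).2 = v at *
  generalize (K (b' ++ [2])).1 = u' at *
  generalize (K (b' ++ [2])).2 = v' at *
  have k0 : (1 : ℤ) ≤ u := by exact_mod_cast h0
  have k0' : (1 : ℤ) ≤ u' := by exact_mod_cast h0'
  have k1 : 5 * (v : ℤ) ≤ 4 * u := by exact_mod_cast h2
  have k2 : 5 * (v' : ℤ) ≤ 4 * u' := by exact_mod_cast h4
  have k3 : (0 : ℤ) ≤ v := Int.natCast_nonneg _
  have k4 : (0 : ℤ) ≤ v' := Int.natCast_nonneg _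
  have e : ((a : ℤ) * u + v) * u' - u * (a' * u' + v') =
      (a - a') * (u * u') + (v * u' - u * v') := by ring
  rw [e]
  have p1 : (1 : ℤ) ≤ u * u' := by nlinarith
  have p2 : (v : ℤ) * u' < u * u' := by nlinarith
  have p3 : (u : ℤ) * v' < u * u' := by nlinarith
  have p4 : (0 : ℤ) ≤ v * u' := by positivity
  have p5 : (0 : ℤ) ≤ u * v' := by positivity
  rcases lt_or_gt_of_ne h with hlt | hgt
  · have : (a : ℤ) + 1 ≤ a' := by exact_mod_cast hlt
    have p6 : ((a : ℤ) - a') * (u * u') ≤ -1 * (u * u') :=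
      mul_le_mul_of_nonneg_right (by linarith) (by linarith)
    intro h0
    linarith
  · have : (a' : ℤ) + 1 ≤ a := by exact_mod_cast hgt
    have p6 : 1 * ((u : ℤ) * u') ≤ ((a : ℤ) - a') * (u * u') :=
      mul_le_mul_of_nonneg_right (by linarith) (by linarith)
    intro h0
    linarith

/-- Two words which branch at different tokens give an element of `D 3`. -/
private theorem branch (p : List (Fin 5)) (t t' : Fin 5) (h : t ≠ t') (α β : List (Fin 5))
    (b b' : List ℕ) (hb : Dig b) (hb' : Dig b') :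
    ∃ q ∈ D 3, (q : ℤ) = |X ((p ++ t :: α).flatMap tok ++ (b ++ [2]))
      ((p ++ t' :: β).flatMap tok ++ (b' ++ [2]))| := by
  let α' : List ℕ := α.flatMap tok ++ (b ++ [2])
  let β' : List ℕ := β.flatMap tok ++ b'
  let L : List ℕ := α'.reverse ++ (mid t t' ++ (β' ++ [2]))
  have hL : L = (α'.reverse ++ (mid t t' ++ β')) ++ [2] := by simp [L]
  have hne : L ≠ [] := by rw [hL]; simp
  have hlast : L.getLast hne = 2 := by
    simp only [hL, List.getLast_append_singleton]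
  have hα : Dig α' := (dig_tok α).append (hb.append dig_two)
  have hβ : Dig (β' ++ [2]) := ((dig_tok β).append hb').append dig_two
  refine ⟨(K L).1, mem_D 3 L hne ?_ hlast.ge, ?_⟩
  · intro a ha
    simp only [L, List.mem_append (s := α'.reverse), List.mem_reverse,
      List.mem_append (s := mid t t')] at ha
    rcases ha with ha | ha | ha
    · exact hα a ha
    · exact mid_digits t t' a ha
    · exact hβ a ha
  · have e1 : (p ++ t :: α).flatMap tok ++ (b ++ [2]) = p.flatMap tok ++ (tok t ++ α') := by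
      simp [α']
    have e2 : (p ++ t' :: β).flatMap tok ++ (b' ++ [2]) =
        p.flatMap tok ++ (tok t' ++ (β' ++ [2])) := by
      simp [β']
    rw [e1, e2, X_append, glue t t' h]

/-! ### Counting -/

/-- no word of `S` is a proper prefix of another one -/
private def PF {ι : Type} (S : Finset (List ι)) : Prop :=
  ∀ w ∈ S, ∀ w' ∈ S, w ≠ w' → ∃ (p : List ι) (t t' : ι) (α β : List ι),
    t ≠ t' ∧ w = p ++ t :: α ∧ w' = p ++ t' :: β

private theorem PF_union {ι : Type} [Fintype ι] (S : ι → Finset (List ι)) (h : ∀ t, PF (S t)) :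
    ∃ T : Finset (List ι), PF T ∧ T.card = ∑ t, (S t).card ∧
      ∀ w ∈ T, ∃ t, ∃ v ∈ S t, w = t :: v := by
  classical
  refine ⟨Finset.univ.biUnion fun t => (S t).image fun v => t :: v, ?_, ?_, ?_⟩
  · intro w hw w' hw' hne
    simp only [Finset.mem_biUnion, Finset.mem_univ, true_and, Finset.mem_image] at hw hw'
    obtain ⟨t, v, hv, rfl⟩ := hw
    obtain ⟨t', v', hv', rfl⟩ := hw'
    by_cases htt : t = t'
    · subst htt
      have hvv : v ≠ v' := fun e => hne (by rw [e])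
      obtain ⟨p, s, s', α, β, hs, rfl, rfl⟩ := h t v hv v' hv' hvv
      exact ⟨t :: p, s, s', α, β, hs, rfl, rfl⟩
    · exact ⟨[], t, t', v, v', htt, rfl, rfl⟩
  · rw [Finset.card_biUnion]
    · refine Finset.sum_congr rfl fun t _ => ?_
      exact Finset.card_image_of_injective _ fun v v' e => (List.cons.inj e).2
    · intro t _ t' _ htt
      rw [Function.onFun, Finset.disjoint_left]
      intro w hw hw'
      rw [Finset.mem_image] at hw hw'
      obtain ⟨v, -, rfl⟩ := hw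
      obtain ⟨v', -, e⟩ := hw'
      exact htt (List.cons.inj e).1.symm
  · intro w hw
    simp only [Finset.mem_biUnion, Finset.mem_univ, true_and, Finset.mem_image] at hw
    obtain ⟨t, v, hv, rfl⟩ := hw
    exact ⟨t, v, hv, rfl⟩

/-- A tree in which the size of a vertex is controlled has many vertices of size about `x`. -/
private theorem tree {ι σ : Type} [Fintype ι] (st : σ → ι → σ) (F : σ → ℝ) (Inv : σ → Prop)
    (g c e : ℝ) (hc : 0 < c) (he : 0 ≤ e) (h1 : ∀ s, Inv s → 0 < F s)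
    (h2 : ∀ s t, Inv s → Inv (st s t)) (h3 : ∀ s t, Inv s → g * F s ≤ F (st s t))
    (hg : 0 < g) (h4 : ∀ s t, Inv s → F (st s t) ≤ c * F s)
    (h5 : ∀ s, Inv s → 1 ≤ ∑ t, (F s / F (st s t)) ^ e) (x : ℝ) :
    ∀ (n : ℕ) (s : σ), Inv s → x < g ^ n * F s → F s ≤ x →
      ∃ S : Finset (List ι), PF S ∧
        (∀ w ∈ S, Inv (w.foldl st s) ∧ F (w.foldl st s) ≤ x ∧ x ≤ c * F (w.foldl st s)) ∧
        (x / (c * F s)) ^ e ≤ S.card := by
  intro n
  induction n with
  | zero =>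
    intro s _ a1 a2
    rw [pow_zero, one_mul] at a1
    exact absurd a1 (not_lt.2 a2)
  | succ n ih =>
    intro s hI a1 a2
    have hF := h1 s hI
    have hx0 : 0 ≤ x / (c * F s) := div_nonneg (hF.le.trans a2) (by positivity)
    by_cases hx : x ≤ c * F s
    · refine ⟨{[]}, ?_, ?_, ?_⟩
      · intro w hw w' hw' hne
        rw [Finset.mem_singleton] at hw hw'
        exact absurd (hw.trans hw'.symm) hne
      · intro w hw
        rw [Finset.mem_singleton] at hw
        subst hw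
        exact ⟨hI, a2, hx⟩
      · rw [Finset.card_singleton, Nat.cast_one]
        refine Real.rpow_le_one hx0 ?_ he
        rwa [div_le_one (by positivity)]
    · push Not at hx
      have hstep : ∀ t, ∃ S : Finset (List ι), PF S ∧
          (∀ w ∈ S, Inv (w.foldl st (st s t)) ∧ F (w.foldl st (st s t)) ≤ x ∧
            x ≤ c * F (w.foldl st (st s t))) ∧
          (x / (c * F (st s t))) ^ e ≤ S.card := by
        intro t
        refine ih _ (h2 s t hI) ?_ ?_
        · calc x < g ^ (n + 1) * F s := a1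
            _ = g ^ n * (g * F s) := by ring
            _ ≤ g ^ n * F (st s t) := mul_le_mul_of_nonneg_left (h3 s t hI) (by positivity)
        · exact (h4 s t hI).trans hx.le
      choose S hS1 hS2 hS3 using hstep
      obtain ⟨T, hT1, hT2, hT3⟩ := PF_union S hS1
      refine ⟨T, hT1, ?_, ?_⟩
      · intro w hw
        obtain ⟨t, v, hv, rfl⟩ := hT3 w hw
        exact hS2 t v hv
      · have key : ∀ t, (x / (c * F s)) ^ e * (F s / F (st s t)) ^ e ≤ ((S t).card : ℝ) := by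
          intro t
          have hFt : 0 < F (st s t) := h1 _ (h2 s t hI)
          refine le_trans (le_of_eq ?_) (hS3 t)
          rw [← Real.mul_rpow hx0 (by positivity)]
          congr 1
          field_simp
        rw [hT2]
        push_cast
        calc (x / (c * F s)) ^ e = (x / (c * F s)) ^ e * 1 := (mul_one _).symm
          _ ≤ (x / (c * F s)) ^ e * ∑ t, (F s / F (st s t)) ^ e :=
            mul_le_mul_of_nonneg_left (h5 s hI) (Real.rpow_nonneg hx0 _)
          _ = ∑ t, (x / (c * F s)) ^ e * (F s / F (st s t)) ^ e := Finset.mul_sum _ _ _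
          _ ≤ ∑ t, ((S t).card : ℝ) := Finset.sum_le_sum fun t _ => key t

/-- the value of `2 q + q'` -/
private def F (a : ℕ × ℕ) : ℝ := 2 * a.1 + a.2

/-- the denominator of a word with digits `l` after a prefix with data `a` -/
private def val (a : ℕ × ℕ) (l : List ℕ) : ℕ := a.1 * (K l).1 + a.2 * (K l).2

private theorem val_one (l : List ℕ) : val (1, 0) l = (K l).1 := by simp [val]

private theorem val_two (a : ℕ × ℕ) : (val a [2] : ℝ) = F a := by
  simp [val, K_cons, K_nil, F]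
  ring

private theorem rpow_lower {r ρ s e : ℝ} (n m : ℕ) (hn : n ≠ 0) (he : e = m / n) (h0 : 0 ≤ s)
    (hρ : ρ ≤ r) (hρ0 : 0 ≤ ρ) (hs : s ^ n ≤ ρ ^ m) : s ≤ r ^ e := by
  have hn' : (0 : ℝ) < n := by exact_mod_cast Nat.pos_of_ne_zero hn
  have he0 : 0 ≤ e := by rw [he]; positivity
  have h1 : ρ ^ e ≤ r ^ e := Real.rpow_le_rpow hρ0 hρ he0
  refine le_trans ?_ h1
  have h2 : (s ^ n) ^ (1 / n : ℝ) ≤ (ρ ^ m) ^ (1 / n : ℝ) :=
    Real.rpow_le_rpow (by positivity) hs (by positivity)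
  have h3 : (s ^ n) ^ (1 / n : ℝ) = s := by
    rw [← Real.rpow_natCast, ← Real.rpow_mul h0, mul_one_div_cancel hn'.ne', Real.rpow_one]
  have h4 : (ρ ^ m) ^ (1 / n : ℝ) = ρ ^ e := by
    rw [← Real.rpow_natCast, ← Real.rpow_mul hρ0, he, mul_one_div]
  rwa [h3, h4] at h2

private theorem ratio_lower {f g ρ : ℝ} (hg : 0 < g) (h : ρ * g ≤ f) : ρ ≤ f / g := by
  rwa [le_div_iff₀ hg]

/-! #### The tree of the tokens -/

/-- the new data after a token -/
private def st (a : ℕ × ℕ) : Fin 5 → ℕ × ℕ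
  | 0 => (4 * a.1 + a.2, 3 * a.1 + a.2)
  | 1 => (5 * a.1 + 4 * a.2, 4 * a.1 + 3 * a.2)
  | 2 => (5 * a.1 + 2 * a.2, 3 * a.1 + a.2)
  | 3 => (7 * a.1 + 5 * a.2, 4 * a.1 + 3 * a.2)
  | 4 => (5 * a.1 + 3 * a.2, 3 * a.1 + 2 * a.2)

private theorem val_st (a : ℕ × ℕ) (t : Fin 5) (l : List ℕ) :
    val (st a t) l = val a (tok t ++ l) := by
  fin_cases t <;> simp only [val, st, tok, K_cons, List.cons_append, List.nil_append] <;> ring

private theorem val_foldl (w : List (Fin 5)) : ∀ (a : ℕ × ℕ) (l : List ℕ),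
    val (w.foldl st a) l = val a (w.flatMap tok ++ l) := by
  induction w with
  | nil => intro a l; rfl
  | cons t w ih =>
    intro a l
    rw [List.foldl_cons, ih, val_st, List.flatMap_cons, List.append_assoc]

/-- the data which occur -/
private def Inv (a : ℕ × ℕ) : Prop := 0 < a.1 ∧ (a.2 = 0 ∨ (4 * a.1 ≤ 7 * a.2 ∧ 5 * a.2 ≤ 4 * a.1))

private theorem Inv.real {a : ℕ × ℕ} (h : Inv a) :
    (1 : ℝ) ≤ a.1 ∧ (0 : ℝ) ≤ a.2 ∧ 5 * (a.2 : ℝ) ≤ 4 * a.1 := by
  obtain ⟨h1, h2⟩ := h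
  refine ⟨by exact_mod_cast h1, Nat.cast_nonneg _, ?_⟩
  have : 5 * a.2 ≤ 4 * a.1 := by omega
  exact_mod_cast this

private theorem sum_ge (a : ℕ × ℕ) (h : Inv a) :
    1 ≤ ∑ t, (F a / F (st a t)) ^ (5 / 6 : ℝ) := by
  obtain ⟨q, q'⟩ := a
  obtain ⟨hq, h⟩ := h
  have hq0 : (0 : ℝ) < q := by exact_mod_cast hq
  have hq1 : (0 : ℝ) ≤ q' := Nat.cast_nonneg q'
  rw [Fin.sum_univ_five]
  simp only at h
  rcases h with rfl | ⟨h1, h2⟩
  · have e0 : (6 / 25 : ℝ) ≤ (F (q, 0) / F (st (q, 0) 0)) ^ (5 / 6 : ℝ) := by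
      refine rpow_lower (ρ := 2 / 11) 6 5 (by norm_num) (by norm_num) (by norm_num)
        (ratio_lower ?_ ?_) (by norm_num) (by norm_num)
      all_goals simp only [F, st]; push_cast; linarith
    have e1 : (19 / 100 : ℝ) ≤ (F (q, 0) / F (st (q, 0) 1)) ^ (5 / 6 : ℝ) := by
      refine rpow_lower (ρ := 1 / 7) 6 5 (by norm_num) (by norm_num) (by norm_num)
        (ratio_lower ?_ ?_) (by norm_num) (by norm_num)
      all_goals simp only [F, st]; push_cast; linarith
    have e2 : (21 / 100 : ℝ) ≤ (F (q, 0) / F (st (q, 0) 2)) ^ (5 / 6 : ℝ) := by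
      refine rpow_lower (ρ := 2 / 13) 6 5 (by norm_num) (by norm_num) (by norm_num)
        (ratio_lower ?_ ?_) (by norm_num) (by norm_num)
      all_goals simp only [F, st]; push_cast; linarith
    have e3 : (4 / 25 : ℝ) ≤ (F (q, 0) / F (st (q, 0) 3)) ^ (5 / 6 : ℝ) := by
      refine rpow_lower (ρ := 1 / 9) 6 5 (by norm_num) (by norm_num) (by norm_num)
        (ratio_lower ?_ ?_) (by norm_num) (by norm_num)
      all_goals simp only [F, st]; push_cast; linarith
    have e4 : (21 / 100 : ℝ) ≤ (F (q, 0) / F (st (q, 0) 4)) ^ (5 / 6 : ℝ) := by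
      refine rpow_lower (ρ := 2 / 13) 6 5 (by norm_num) (by norm_num) (by norm_num)
        (ratio_lower ?_ ?_) (by norm_num) (by norm_num)
      all_goals simp only [F, st]; push_cast; linarith
    linarith
  · have h1' : 4 * (q : ℝ) ≤ 7 * q' := by exact_mod_cast h1
    have h2' : 5 * (q' : ℝ) ≤ 4 * q := by exact_mod_cast h2
    have e0 : (263 / 1000 : ℝ) ≤ (F (q, q') / F (st (q, q') 0)) ^ (5 / 6 : ℝ) := by
      refine rpow_lower (ρ := 18 / 89) 6 5 (by norm_num) (by norm_num) (by norm_num)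
        (ratio_lower ?_ ?_) (by norm_num) (by norm_num)
      all_goals simp only [F, st]; push_cast; linarith
    have e1 : (87 / 500 : ℝ) ≤ (F (q, q') / F (st (q, q') 1)) ^ (5 / 6 : ℝ) := by
      refine rpow_lower (ρ := 7 / 57) 6 5 (by norm_num) (by norm_num) (by norm_num)
        (ratio_lower ?_ ?_) (by norm_num) (by norm_num)
      all_goals simp only [F, st]; push_cast; linarith
    have e2 : (219 / 1000 : ℝ) ≤ (F (q, q') / F (st (q, q') 2)) ^ (5 / 6 : ℝ) := by
      refine rpow_lower (ρ := 6 / 37) 6 5 (by norm_num) (by norm_num) (by norm_num)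
        (ratio_lower ?_ ?_) (by norm_num) (by norm_num)
      all_goals simp only [F, st]; push_cast; linarith
    have e3 : (29 / 200 : ℝ) ≤ (F (q, q') / F (st (q, q') 3)) ^ (5 / 6 : ℝ) := by
      refine rpow_lower (ρ := 7 / 71) 6 5 (by norm_num) (by norm_num) (by norm_num)
        (ratio_lower ?_ ?_) (by norm_num) (by norm_num)
      all_goals simp only [F, st]; push_cast; linarith
    have e4 : (199 / 1000 : ℝ) ≤ (F (q, q') / F (st (q, q') 4)) ^ (5 / 6 : ℝ) := by
      refine rpow_lower (ρ := 14 / 97) 6 5 (by norm_num) (by norm_num) (by norm_num)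
        (ratio_lower ?_ ?_) (by norm_num) (by norm_num)
      all_goals simp only [F, st]; push_cast; linarith
    linarith

/-- the tops -/
private theorem tops (x : ℝ) (hx : 2 ≤ x) : ∃ S : Finset (List (Fin 5)), PF S ∧
    (∀ w ∈ S, Inv (w.foldl st (1, 0)) ∧ F (w.foldl st (1, 0)) ≤ x ∧
      x ≤ 203 / 20 * F (w.foldl st (1, 0))) ∧ (x / (203 / 10)) ^ (5 / 6 : ℝ) ≤ S.card := by
  obtain ⟨n, hn⟩ := pow_unbounded_of_one_lt x (by norm_num : (1 : ℝ) < 4)
  have hF : F (1, 0) = 2 := by norm_num [F]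
  have h := tree st F Inv 4 (203 / 20) (5 / 6) (by norm_num) (by norm_num)
    (fun a h => by
      obtain ⟨h1, h2, h3⟩ := h.real
      simp only [F]
      linarith)
    (fun a t h => by
      obtain ⟨q, q'⟩ := a
      unfold Inv at h ⊢
      fin_cases t <;> simp only [st] at h ⊢ <;> omega)
    (fun a t h => by
      obtain ⟨h1, h2, h3⟩ := h.real
      fin_cases t <;> simp only [st, F] <;> push_cast <;> linarith)
    (by norm_num)
    (fun a t h => by
      obtain ⟨h1, h2, h3⟩ := h.real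
      fin_cases t <;> simp only [st, F] <;> push_cast <;> linarith)
    sum_ge x n (1, 0) ⟨one_pos, Or.inl rfl⟩ (by rw [hF]; linarith) (by rw [hF]; exact hx)
  rw [hF] at h
  norm_num at h ⊢
  exact h

/-! #### The tree of all digits -/

/-- the new data after a digit -/
private def sd (a : ℕ × ℕ) : Fin 3 → ℕ × ℕ
  | 0 => (a.1 + a.2, a.1)
  | 1 => (2 * a.1 + a.2, a.1)
  | 2 => (3 * a.1 + a.2, a.1)

/-- the digit -/
private def dg : Fin 3 → ℕ
  | 0 => 1
  | 1 => 2
  | 2 => 3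

private theorem val_sd (a : ℕ × ℕ) (t : Fin 3) (l : List ℕ) :
    val (sd a t) l = val a (dg t :: l) := by
  fin_cases t <;> simp only [val, sd, dg, K_cons] <;> ring

private theorem val_foldl_sd (w : List (Fin 3)) : ∀ (a : ℕ × ℕ) (l : List ℕ),
    val (w.foldl sd a) l = val a (w.map dg ++ l) := by
  induction w with
  | nil => intro a l; rfl
  | cons t w ih =>
    intro a l
    rw [List.foldl_cons, ih, val_sd, List.map_cons, List.cons_append]

private theorem dig_dg (w : List (Fin 3)) : Dig (w.map dg) := by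
  intro a ha
  rw [List.mem_map] at ha
  obtain ⟨t, -, rfl⟩ := ha
  fin_cases t <;> simp [dg]

/-- the data which occur -/
private def InvD (a : ℕ × ℕ) : Prop := 0 < a.1 ∧ (a.2 = 0 ∨ (a.1 ≤ 4 * a.2 ∧ a.2 ≤ a.1))

private theorem InvD.real {a : ℕ × ℕ} (h : InvD a) :
    (1 : ℝ) ≤ a.1 ∧ (0 : ℝ) ≤ a.2 ∧ (a.2 : ℝ) ≤ a.1 := by
  obtain ⟨h1, h2⟩ := h
  refine ⟨by exact_mod_cast h1, Nat.cast_nonneg _, ?_⟩
  have : a.2 ≤ a.1 := by omega
  exact_mod_cast this

private theorem sum_ge_D (a : ℕ × ℕ) (h : InvD a) :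
    1 ≤ ∑ t, (F a / F (sd a t)) ^ (7 / 5 : ℝ) := by
  obtain ⟨q, q'⟩ := a
  obtain ⟨hq, h⟩ := h
  have hq0 : (0 : ℝ) < q := by exact_mod_cast hq
  have hq1 : (0 : ℝ) ≤ q' := Nat.cast_nonneg q'
  rw [Fin.sum_univ_three]
  simp only at h
  rcases h with rfl | ⟨h1, h2⟩
  · have e0 : (283 / 500 : ℝ) ≤ (F (q, 0) / F (sd (q, 0) 0)) ^ (7 / 5 : ℝ) := by
      refine rpow_lower (ρ := 2 / 3) 5 7 (by norm_num) (by norm_num) (by norm_num)
        (ratio_lower ?_ ?_) (by norm_num) (by norm_num)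
      all_goals simp only [F, sd]; push_cast; linarith
    have e1 : (277 / 1000 : ℝ) ≤ (F (q, 0) / F (sd (q, 0) 1)) ^ (7 / 5 : ℝ) := by
      refine rpow_lower (ρ := 2 / 5) 5 7 (by norm_num) (by norm_num) (by norm_num)
        (ratio_lower ?_ ?_) (by norm_num) (by norm_num)
      all_goals simp only [F, sd]; push_cast; linarith
    have e2 : (173 / 1000 : ℝ) ≤ (F (q, 0) / F (sd (q, 0) 2)) ^ (7 / 5 : ℝ) := by
      refine rpow_lower (ρ := 2 / 7) 5 7 (by norm_num) (by norm_num) (by norm_num)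
        (ratio_lower ?_ ?_) (by norm_num) (by norm_num)
      all_goals simp only [F, sd]; push_cast; linarith
    linarith
  · have h1' : (q : ℝ) ≤ 4 * q' := by exact_mod_cast h1
    have h2' : (q' : ℝ) ≤ q := by exact_mod_cast h2
    rcases le_total (q' : ℝ) (7 / 20 * q) with hv | hu
    · have e0 : (331 / 625 : ℝ) ≤ (F (q, q') / F (sd (q, q') 0)) ^ (7 / 5 : ℝ) := by
        refine rpow_lower (ρ := 47 / 74) 5 7 (by norm_num) (by norm_num) (by norm_num)
          (ratio_lower ?_ ?_) (by norm_num) (by norm_num)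
        all_goals simp only [F, sd]; push_cast; linarith
      have e1 : (2861 / 10000 : ℝ) ≤ (F (q, q') / F (sd (q, q') 1)) ^ (7 / 5 : ℝ) := by
        refine rpow_lower (ρ := 9 / 22) 5 7 (by norm_num) (by norm_num) (by norm_num)
          (ratio_lower ?_ ?_) (by norm_num) (by norm_num)
        all_goals simp only [F, sd]; push_cast; linarith
      have e2 : (1853 / 10000 : ℝ) ≤ (F (q, q') / F (sd (q, q') 2)) ^ (7 / 5 : ℝ) := by
        refine rpow_lower (ρ := 3 / 10) 5 7 (by norm_num) (by norm_num) (by norm_num)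
          (ratio_lower ?_ ?_) (by norm_num) (by norm_num)
        all_goals simp only [F, sd]; push_cast; linarith
      linarith
    rcases le_total (q' : ℝ) (9 / 20 * q) with hv | hu
    · have e0 : (326 / 625 : ℝ) ≤ (F (q, q') / F (sd (q, q') 0)) ^ (7 / 5 : ℝ) := by
        refine rpow_lower (ρ := 49 / 78) 5 7 (by norm_num) (by norm_num) (by norm_num)
          (ratio_lower ?_ ?_) (by norm_num) (by norm_num)
        all_goals simp only [F, sd]; push_cast; linarith
      have e1 : (723 / 2500 : ℝ) ≤ (F (q, q') / F (sd (q, q') 1)) ^ (7 / 5 : ℝ) := by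
        refine rpow_lower (ρ := 47 / 114) 5 7 (by norm_num) (by norm_num) (by norm_num)
          (ratio_lower ?_ ?_) (by norm_num) (by norm_num)
        all_goals simp only [F, sd]; push_cast; linarith
      have e2 : (949 / 5000 : ℝ) ≤ (F (q, q') / F (sd (q, q') 2)) ^ (7 / 5 : ℝ) := by
        refine rpow_lower (ρ := 47 / 154) 5 7 (by norm_num) (by norm_num) (by norm_num)
          (ratio_lower ?_ ?_) (by norm_num) (by norm_num)
        all_goals simp only [F, sd]; push_cast; linarith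
      linarith
    rcases le_total (q' : ℝ) (11 / 20 * q) with hv | hu
    · have e0 : (5143 / 10000 : ℝ) ≤ (F (q, q') / F (sd (q, q') 0)) ^ (7 / 5 : ℝ) := by
        refine rpow_lower (ρ := 51 / 82) 5 7 (by norm_num) (by norm_num) (by norm_num)
          (ratio_lower ?_ ?_) (by norm_num) (by norm_num)
        all_goals simp only [F, sd]; push_cast; linarith
      have e1 : (2921 / 10000 : ℝ) ≤ (F (q, q') / F (sd (q, q') 1)) ^ (7 / 5 : ℝ) := by
        refine rpow_lower (ρ := 49 / 118) 5 7 (by norm_num) (by norm_num) (by norm_num)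
          (ratio_lower ?_ ?_) (by norm_num) (by norm_num)
        all_goals simp only [F, sd]; push_cast; linarith
      have e2 : (1941 / 10000 : ℝ) ≤ (F (q, q') / F (sd (q, q') 2)) ^ (7 / 5 : ℝ) := by
        refine rpow_lower (ρ := 49 / 158) 5 7 (by norm_num) (by norm_num) (by norm_num)
          (ratio_lower ?_ ?_) (by norm_num) (by norm_num)
        all_goals simp only [F, sd]; push_cast; linarith
      linarith
    rcases le_total (q' : ℝ) (13 / 20 * q) with hv | hu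
    · have e0 : (5077 / 10000 : ℝ) ≤ (F (q, q') / F (sd (q, q') 0)) ^ (7 / 5 : ℝ) := by
        refine rpow_lower (ρ := 53 / 86) 5 7 (by norm_num) (by norm_num) (by norm_num)
          (ratio_lower ?_ ?_) (by norm_num) (by norm_num)
        all_goals simp only [F, sd]; push_cast; linarith
      have e1 : (2949 / 10000 : ℝ) ≤ (F (q, q') / F (sd (q, q') 1)) ^ (7 / 5 : ℝ) := by
        refine rpow_lower (ρ := 51 / 122) 5 7 (by norm_num) (by norm_num) (by norm_num)
          (ratio_lower ?_ ?_) (by norm_num) (by norm_num)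
        all_goals simp only [F, sd]; push_cast; linarith
      have e2 : (991 / 5000 : ℝ) ≤ (F (q, q') / F (sd (q, q') 2)) ^ (7 / 5 : ℝ) := by
        refine rpow_lower (ρ := 17 / 54) 5 7 (by norm_num) (by norm_num) (by norm_num)
          (ratio_lower ?_ ?_) (by norm_num) (by norm_num)
        all_goals simp only [F, sd]; push_cast; linarith
      linarith
    rcases le_total (q' : ℝ) (3 / 4 * q) with hv | hu
    · have e0 : (2509 / 5000 : ℝ) ≤ (F (q, q') / F (sd (q, q') 0)) ^ (7 / 5 : ℝ) := by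
        refine rpow_lower (ρ := 11 / 18) 5 7 (by norm_num) (by norm_num) (by norm_num)
          (ratio_lower ?_ ?_) (by norm_num) (by norm_num)
        all_goals simp only [F, sd]; push_cast; linarith
      have e1 : (1487 / 5000 : ℝ) ≤ (F (q, q') / F (sd (q, q') 1)) ^ (7 / 5 : ℝ) := by
        refine rpow_lower (ρ := 53 / 126) 5 7 (by norm_num) (by norm_num) (by norm_num)
          (ratio_lower ?_ ?_) (by norm_num) (by norm_num)
        all_goals simp only [F, sd]; push_cast; linarith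
      have e2 : (1011 / 5000 : ℝ) ≤ (F (q, q') / F (sd (q, q') 2)) ^ (7 / 5 : ℝ) := by
        refine rpow_lower (ρ := 53 / 166) 5 7 (by norm_num) (by norm_num) (by norm_num)
          (ratio_lower ?_ ?_) (by norm_num) (by norm_num)
        all_goals simp only [F, sd]; push_cast; linarith
      linarith
    rcases le_total (q' : ℝ) (7 / 8 * q) with hv | hu
    · have e0 : (4951 / 10000 : ℝ) ≤ (F (q, q') / F (sd (q, q') 0)) ^ (7 / 5 : ℝ) := by
        refine rpow_lower (ρ := 23 / 38) 5 7 (by norm_num) (by norm_num) (by norm_num)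
          (ratio_lower ?_ ?_) (by norm_num) (by norm_num)
        all_goals simp only [F, sd]; push_cast; linarith
      have e1 : (2999 / 10000 : ℝ) ≤ (F (q, q') / F (sd (q, q') 1)) ^ (7 / 5 : ℝ) := by
        refine rpow_lower (ρ := 11 / 26) 5 7 (by norm_num) (by norm_num) (by norm_num)
          (ratio_lower ?_ ?_) (by norm_num) (by norm_num)
        all_goals simp only [F, sd]; push_cast; linarith
      have e2 : (103 / 500 : ℝ) ≤ (F (q, q') / F (sd (q, q') 2)) ^ (7 / 5 : ℝ) := by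
        refine rpow_lower (ρ := 11 / 34) 5 7 (by norm_num) (by norm_num) (by norm_num)
          (ratio_lower ?_ ?_) (by norm_num) (by norm_num)
        all_goals simp only [F, sd]; push_cast; linarith
      linarith
    have e0 : (4891 / 10000 : ℝ) ≤ (F (q, q') / F (sd (q, q') 0)) ^ (7 / 5 : ℝ) := by
      refine rpow_lower (ρ := 3 / 5) 5 7 (by norm_num) (by norm_num) (by norm_num)
        (ratio_lower ?_ ?_) (by norm_num) (by norm_num)
      all_goals simp only [F, sd]; push_cast; linarith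
    have e1 : (3027 / 10000 : ℝ) ≤ (F (q, q') / F (sd (q, q') 1)) ^ (7 / 5 : ℝ) := by
      refine rpow_lower (ρ := 23 / 54) 5 7 (by norm_num) (by norm_num) (by norm_num)
        (ratio_lower ?_ ?_) (by norm_num) (by norm_num)
      all_goals simp only [F, sd]; push_cast; linarith
    have e2 : (421 / 2000 : ℝ) ≤ (F (q, q') / F (sd (q, q') 2)) ^ (7 / 5 : ℝ) := by
      refine rpow_lower (ρ := 23 / 70) 5 7 (by norm_num) (by norm_num) (by norm_num)
        (ratio_lower ?_ ?_) (by norm_num) (by norm_num)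
      all_goals simp only [F, sd]; push_cast; linarith
    linarith

/-- The bottoms: many words `b` such that `d` does not divide the determinant of two of
them. -/
private theorem bottoms (d : ℕ) (hd : 1 ≤ d) : ∃ (B : Finset (List (Fin 3))) (R : ℝ), 2 ≤ R ∧
    R ^ 2 ≤ 4 * d ∧
    (∀ b ∈ B, ((K (b.map dg ++ [2])).1 : ℝ) ≤ R ∧ R ≤ 7 / 2 * ((K (b.map dg ++ [2])).1 : ℝ)) ∧
    (∀ b ∈ B, ∀ b' ∈ B, b ≠ b' → ¬ (d : ℤ) ∣ X (b.map dg ++ [2]) (b'.map dg ++ [2])) ∧
    (9 / 245 * (d : ℝ)) ^ (7 / 10 : ℝ) ≤ (9 / 5 * (d : ℝ) / R ^ 2) ^ (5 / 12 : ℝ) * B.card := by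
  have hd1 : (1 : ℝ) ≤ d := by exact_mod_cast hd
  by_cases h3 : d < 3
  · have hd2 : (d : ℝ) ≤ 2 := by
      have : d ≤ 2 := by omega
      exact_mod_cast this
    refine ⟨{[]}, 2, le_rfl, by linarith, ?_, ?_, ?_⟩
    · intro b hb
      rw [Finset.mem_singleton] at hb
      subst hb
      simp [K_cons, K_nil]
      norm_num
    · intro b hb b' hb' hne
      rw [Finset.mem_singleton] at hb hb'
      exact absurd (hb.trans hb'.symm) hne
    · rw [Finset.card_singleton, Nat.cast_one, mul_one]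
      calc (9 / 245 * (d : ℝ)) ^ (7 / 10 : ℝ) ≤ (9 / 245 * (d : ℝ)) ^ (5 / 12 : ℝ) :=
            Real.rpow_le_rpow_of_exponent_ge (by positivity) (by linarith) (by norm_num)
        _ ≤ (9 / 5 * (d : ℝ) / 2 ^ 2) ^ (5 / 12 : ℝ) :=
            Real.rpow_le_rpow (by positivity) (by linarith) (by norm_num)
  · have hd3 : (3 : ℝ) ≤ d := by
      have : 3 ≤ d := by omega
      exact_mod_cast this
    set R : ℝ := √(9 / 5 * d) with hR
    have hRR : R ^ 2 = 9 / 5 * d := Real.sq_sqrt (by positivity)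
    have hR2 : 2 ≤ R := by
      rw [hR]
      refine Real.le_sqrt_of_sq_le ?_
      linarith
    obtain ⟨n, hn⟩ := pow_unbounded_of_one_lt R (by norm_num : (1 : ℝ) < 3 / 2)
    have hF : F (1, 0) = 2 := by norm_num [F]
    obtain ⟨B, hB1, hB2, hB3⟩ := tree sd F InvD (3 / 2) (7 / 2) (7 / 5) (by norm_num)
      (by norm_num)
      (fun a h => by
        obtain ⟨h1, h2, h3⟩ := h.real
        simp only [F]
        linarith)
      (fun a t h => by
        obtain ⟨q, q'⟩ := a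
        unfold InvD at h ⊢
        fin_cases t <;> simp only [sd] at h ⊢ <;> omega)
      (fun a t h => by
        obtain ⟨h1, h2, h3⟩ := h.real
        fin_cases t <;> simp only [sd, F] <;> push_cast <;> linarith)
      (by norm_num)
      (fun a t h => by
        obtain ⟨h1, h2, h3⟩ := h.real
        fin_cases t <;> simp only [sd, F] <;> push_cast <;> linarith)
      sum_ge_D R n (1, 0) ⟨one_pos, Or.inl rfl⟩ (by rw [hF]; linarith) (by rw [hF]; exact hR2)
    have hval : ∀ b : List (Fin 3), F (b.foldl sd (1, 0)) = ((K (b.map dg ++ [2])).1 : ℝ) := by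
      intro b
      rw [← val_two, val_foldl_sd, val_one]
    have hK : ∀ b ∈ B, ((K (b.map dg ++ [2])).1 : ℝ) ≤ R ∧
        R ≤ 7 / 2 * ((K (b.map dg ++ [2])).1 : ℝ) := by
      intro b hb
      rw [← hval]
      exact (hB2 b hb).2
    refine ⟨B, R, hR2, by rw [hRR]; linarith, hK, ?_, ?_⟩
    · intro b hb b' hb' hne hdvd
      have h0 : X (b.map dg ++ [2]) (b'.map dg ++ [2]) ≠ 0 := by
        obtain ⟨p, t, t', α, β, htt, rfl, rfl⟩ := hB1 b hb b' hb' hne
        have e1 : (p ++ t :: α).map dg ++ [2] = p.map dg ++ (dg t :: (α.map dg ++ [2])) := by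
          simp
        have e2 : (p ++ t' :: β).map dg ++ [2] = p.map dg ++ (dg t' :: (β.map dg ++ [2])) := by
          simp
        rw [← abs_ne_zero, e1, e2, X_append, abs_ne_zero]
        refine X_ne _ _ ?_ _ _ (dig_dg α) (dig_dg β)
        fin_cases t <;> fin_cases t' <;> first | exact absurd rfl htt | simp [dg]
      have h1 := X_bound _ _ (dig_dg b) (dig_dg b')
      have h2 : |(X (b.map dg ++ [2]) (b'.map dg ++ [2]) : ℝ)| < d := by
        refine lt_of_le_of_lt h1 ?_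
        have h3 : ((K (b.map dg ++ [2])).1 : ℝ) * (K (b'.map dg ++ [2])).1 ≤ R * R :=
          mul_le_mul (hK b hb).1 (hK b' hb').1 (Nat.cast_nonneg _) (by linarith)
        have h4 : R * R = 9 / 5 * d := by rw [← sq]; exact hRR
        rw [h4] at h3
        linarith
      have h3 : |X (b.map dg ++ [2]) (b'.map dg ++ [2])| < (d : ℤ) := by exact_mod_cast h2
      exact h0 (Int.eq_zero_of_abs_lt_dvd hdvd h3)
    · rw [hRR, div_self (by positivity), Real.one_rpow, one_mul]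
      refine le_trans (le_of_eq ?_) hB3
      rw [hF]
      have h4 : (0 : ℝ) ≤ R / (7 / 2 * 2) := by positivity
      have h5 : (R / (7 / 2 * 2)) ^ (7 / 5 : ℝ) = ((R / (7 / 2 * 2)) ^ 2) ^ (7 / 10 : ℝ) := by
        rw [← Real.rpow_natCast, ← Real.rpow_mul h4]
        norm_num
      rw [h5, div_pow, hRR]
      congr 1
      ring

/-! ### Pigeonhole principle -/

private theorem exists_class (d q p : ℕ) (hd : 0 < d) :
    ∃ r < d / Nat.gcd q d,
      ((d / Nat.gcd q d : ℕ) : ℤ) ∣ (r : ℤ) * ((q / Nat.gcd q d : ℕ) : ℤ) - p := by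
  have hg : 0 < Nat.gcd q d := Nat.gcd_pos_of_pos_right q hd
  have hn : 0 < d / Nat.gcd q d := Nat.div_pos (Nat.gcd_le_right q hd) hg
  have hc : Nat.Coprime (q / Nat.gcd q d) (d / Nat.gcd q d) := Nat.coprime_div_gcd_div_gcd hg
  have : NeZero (d / Nat.gcd q d) := ⟨hn.ne'⟩
  refine ⟨((p : ZMod (d / Nat.gcd q d)) *
    ((q / Nat.gcd q d : ℕ) : ZMod (d / Nat.gcd q d))⁻¹).val, ZMod.val_lt _, ?_⟩
  rw [← ZMod.intCast_zmod_eq_zero_iff_dvd]
  rw [Int.cast_sub, Int.cast_mul, Int.cast_natCast, Int.cast_natCast, Int.cast_natCast,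
    ZMod.natCast_zmod_val, mul_assoc, mul_comm (_⁻¹), ZMod.coe_mul_inv_eq_one _ hc, mul_one,
    sub_self]

private theorem dvd_of_class (d q p q' p' r : ℕ) (hg : Nat.gcd q d = Nat.gcd q' d)
    (h : ((d / Nat.gcd q d : ℕ) : ℤ) ∣ (r : ℤ) * ((q / Nat.gcd q d : ℕ) : ℤ) - p)
    (h' : ((d / Nat.gcd q' d : ℕ) : ℤ) ∣ (r : ℤ) * ((q' / Nat.gcd q' d : ℕ) : ℤ) - p') :
    (d : ℤ) ∣ (q : ℤ) * p' - (p : ℤ) * q' := by
  rw [← hg] at h'
  have e1 : (q : ℤ) = (Nat.gcd q d : ℤ) * ((q / Nat.gcd q d : ℕ) : ℤ) := by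
    exact_mod_cast (Nat.mul_div_cancel' (Nat.gcd_dvd_left q d)).symm
  have e2 : (q' : ℤ) = (Nat.gcd q d : ℤ) * ((q' / Nat.gcd q d : ℕ) : ℤ) := by
    rw [hg]
    exact_mod_cast (Nat.mul_div_cancel' (Nat.gcd_dvd_left q' d)).symm
  have e3 : (d : ℤ) = (Nat.gcd q d : ℤ) * ((d / Nat.gcd q d : ℕ) : ℤ) := by
    exact_mod_cast (Nat.mul_div_cancel' (Nat.gcd_dvd_right q d)).symm
  have e4 : (q : ℤ) * p' - (p : ℤ) * q' = (Nat.gcd q d : ℤ) *
      (((q' / Nat.gcd q d : ℕ) : ℤ) * ((r : ℤ) * ((q / Nat.gcd q d : ℕ) : ℤ) - p) -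
        ((q / Nat.gcd q d : ℕ) : ℤ) * ((r : ℤ) * ((q' / Nat.gcd q d : ℕ) : ℤ) - p')) := by
    rw [e1, e2]
    generalize ((q / Nat.gcd q d : ℕ) : ℤ) = a
    generalize ((q' / Nat.gcd q d : ℕ) : ℤ) = a'
    ring
  rw [e4]
  conv_lhs => rw [e3]
  exact mul_dvd_mul_left _ (dvd_sub (Dvd.dvd.mul_left h _) (Dvd.dvd.mul_left h' _))

/-- Many words are in the same class. -/
private theorem pigeon {α : Type} (d : ℕ) (hd : 0 < d) (S : Finset α) (f : α → List ℕ) :
    ∃ Φ ⊆ S, (S.card : ℝ) ≤ (ArithmeticFunction.sigma 1 d : ℝ) * Φ.card ∧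
      ∀ w ∈ Φ, ∀ w' ∈ Φ, (d : ℤ) ∣ X (f w) (f w') := by
  classical
  choose r hr hr' using fun w : α => exists_class d (K (f w)).1 (K (f w)).2 hd
  let T : Finset (Σ _ : ℕ, ℕ) := d.divisors.sigma fun g => Finset.range (d / g)
  have hT : T.card = ArithmeticFunction.sigma 1 d := by
    rw [Finset.card_sigma, ArithmeticFunction.sigma_one_apply]
    simp only [Finset.card_range]
    exact Nat.sum_div_divisors d fun x => x
  have hpos : 0 < ArithmeticFunction.sigma 1 d := ArithmeticFunction.sigma_pos 1 d hd.ne'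
  have hmaps : ∀ w ∈ S, (⟨Nat.gcd (K (f w)).1 d, r w⟩ : Σ _ : ℕ, ℕ) ∈ T := by
    intro w _
    rw [Finset.mem_sigma]
    exact ⟨Nat.mem_divisors.2 ⟨Nat.gcd_dvd_right _ _, hd.ne'⟩, Finset.mem_range.2 (hr w)⟩
  obtain ⟨y, -, hy⟩ := Finset.exists_le_card_fiber_of_nsmul_le_card_of_maps_to
    (s := S) (t := T) (f := fun w => (⟨Nat.gcd (K (f w)).1 d, r w⟩ : Σ _ : ℕ, ℕ))
    (b := (S.card : ℝ) / (ArithmeticFunction.sigma 1 d : ℝ)) hmaps
    (Finset.card_pos.1 (by rw [hT]; exact hpos)) (by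
      rw [hT, nsmul_eq_mul, mul_div_cancel₀]
      exact_mod_cast hpos.ne')
  refine ⟨S.filter fun w => (⟨Nat.gcd (K (f w)).1 d, r w⟩ : Σ _ : ℕ, ℕ) = y,
    Finset.filter_subset _ _, ?_, ?_⟩
  · have h1 : (0 : ℝ) < (ArithmeticFunction.sigma 1 d : ℝ) := by exact_mod_cast hpos
    rw [div_le_iff₀ h1] at hy
    rw [mul_comm]
    exact hy
  · intro w hw w' hw'
    rw [Finset.mem_filter] at hw hw'
    have he := hw.2.trans hw'.2.symm
    have h1 : Nat.gcd (K (f w)).1 d = Nat.gcd (K (f w')).1 d := congrArg Sigma.fst he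
    have h2 : r w = r w' := congrArg (fun s : Σ _ : ℕ, ℕ => s.2) he
    have h3 := hr' w'
    rw [← h2] at h3
    exact dvd_of_class d _ _ _ _ (r w) h1 (hr' w) h3

/-- The words of a class give many multiples of `d`. -/
private theorem card_class {α : Type} (d : ℕ) (x : ℝ) (Φ : Finset α) (f : α → List ℕ)
    (hf : ∀ w ∈ Φ, ∃ b, Dig b ∧ f w = b ++ [2])
    (hne0 : ∀ w ∈ Φ, ∀ w' ∈ Φ, w ≠ w' → ∃ q ∈ D 3, (q : ℤ) = |X (f w) (f w')|)
    (h : ∀ w ∈ Φ, ((K (f w)).1 : ℝ) ≤ x ∧ x < 50 * ((K (f w)).1 : ℝ))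
    (hd : ∀ w ∈ Φ, ∀ w' ∈ Φ, (d : ℤ) ∣ X (f w) (f w')) (N : ℝ) (hN : 11 / 20 * x ^ 2 ≤ N) :
    Φ.card ≤ 1 + 100 * {q : ℕ | q ∈ D 3 ∧ d ∣ q ∧ (q : ℝ) ≤ N}.ncard := by
  classical
  have hfin : {q : ℕ | q ∈ D 3 ∧ d ∣ q ∧ (q : ℝ) ≤ N}.Finite := by
    refine (Set.finite_Iic ⌊N⌋₊).subset ?_
    rintro q ⟨-, -, hq⟩
    exact Nat.le_floor hq
  rcases Φ.eq_empty_or_nonempty with rfl | ⟨w₀, hw₀⟩
  · simp
  have hp : 1 ≤ (K (f w₀)).1 := by
    obtain ⟨b, hb, hb'⟩ := hf w₀ hw₀
    rw [hb']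
    exact (ratio b hb).1
  have hmaps : ∀ w ∈ Φ.erase w₀, (X (f w₀) (f w)).natAbs ∈ hfin.toFinset := by
    intro w hw
    rw [Finset.mem_erase] at hw
    obtain ⟨q, hq, hq'⟩ := hne0 w₀ hw₀ w hw.2 (Ne.symm hw.1)
    have e : (X (f w₀) (f w)).natAbs = q := by
      rw [Int.abs_eq_natAbs] at hq'
      exact_mod_cast hq'.symm
    rw [e, Set.Finite.mem_toFinset]
    refine ⟨hq, ?_, ?_⟩
    · rw [← e, ← Int.natCast_dvd]
      exact hd w₀ hw₀ w hw.2
    · refine le_trans ?_ hN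
      have h1 : (q : ℝ) = |(X (f w₀) (f w) : ℝ)| := by
        have := congrArg (fun z : ℤ => (z : ℝ)) hq'
        push_cast at this
        exact this
      rw [h1]
      obtain ⟨b, hb, hb'⟩ := hf w₀ hw₀
      obtain ⟨c, hc, hc'⟩ := hf w hw.2
      have h0 := X_bound b c hb hc
      rw [← hb', ← hc'] at h0
      refine h0.trans ?_
      have h2 := (h w₀ hw₀).1
      have h3 := (h w hw.2).1
      have h4 : (0 : ℝ) ≤ (K (f w)).1 := Nat.cast_nonneg _
      have h5 : (0 : ℝ) ≤ (K (f w₀)).1 := Nat.cast_nonneg _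
      have h6 : ((K (f w₀)).1 : ℝ) * (K (f w)).1 ≤ x * x :=
        mul_le_mul h2 h3 h4 (h5.trans h2)
      nlinarith
  have hfib : ∀ q ∈ hfin.toFinset,
      ((Φ.erase w₀).filter fun w => (X (f w₀) (f w)).natAbs = q).card ≤ 100 := by
    intro q _
    have h22 : ((Finset.univ : Finset Bool) ×ˢ Finset.range 50).card = 100 := by simp
    rw [← h22]
    refine Finset.card_le_card_of_injOn
      (fun w => (decide (0 ≤ X (f w₀) (f w)), (K (f w)).1 / (K (f w₀)).1)) ?_ ?_
    · intro w hw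
      rw [Finset.mem_coe, Finset.mem_filter, Finset.mem_erase] at hw
      rw [Finset.mem_coe, Finset.mem_product, Finset.mem_range, Nat.div_lt_iff_lt_mul hp]
      refine ⟨Finset.mem_univ _, ?_⟩
      have h1 := (h w hw.1.2).1
      have h2 := (h w₀ hw₀).2
      have h3 : ((K (f w)).1 : ℝ) < 50 * (K (f w₀)).1 := by linarith
      exact_mod_cast h3
    · intro w hw w' hw' he
      rw [Finset.mem_coe, Finset.mem_filter, Finset.mem_erase] at hw hw'
      by_contra hne
      have he1 : decide (0 ≤ X (f w₀) (f w)) = decide (0 ≤ X (f w₀) (f w')) :=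
        congrArg Prod.fst he
      have he2 : (K (f w)).1 / (K (f w₀)).1 = (K (f w')).1 / (K (f w₀)).1 :=
        congrArg Prod.snd he
      have he3 : X (f w₀) (f w) = X (f w₀) (f w') := by
        rw [decide_eq_decide] at he1
        have a1 := hw.2
        have a2 := hw'.2
        omega
      have hc := K_coprime (f w₀)
      have e1 : ((K (f w₀)).1 : ℤ) * ((K (f w)).2 - (K (f w')).2) =
          ((K (f w₀)).2 : ℤ) * ((K (f w)).1 - (K (f w')).1) := by
        simp only [X] at he3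
        linarith
      have e2 : ((K (f w₀)).1 : ℤ) ∣ ((K (f w)).1 : ℤ) - (K (f w')).1 := by
        have h1 : ((K (f w₀)).1 : ℤ) ∣ ((K (f w₀)).2 : ℤ) * ((K (f w)).1 - (K (f w')).1) :=
          ⟨_, e1.symm⟩
        refine IsCoprime.dvd_of_dvd_mul_left ?_ h1
        exact Nat.isCoprime_iff_coprime.2 hc.symm
      have e3 : |((K (f w)).1 : ℤ) - (K (f w')).1| < ((K (f w₀)).1 : ℤ) := by
        have m1 := Nat.div_add_mod (K (f w)).1 (K (f w₀)).1
        have m2 := Nat.div_add_mod (K (f w')).1 (K (f w₀)).1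
        have m3 := Nat.mod_lt (K (f w)).1 hp
        have m4 := Nat.mod_lt (K (f w')).1 hp
        rw [he2] at m1
        rw [abs_lt]
        constructor <;> omega
      have e4 : ((K (f w)).1 : ℤ) - (K (f w')).1 = 0 := Int.eq_zero_of_abs_lt_dvd e2 e3
      have e5 : ((K (f w)).2 : ℤ) - (K (f w')).2 = 0 := by
        rw [e4, mul_zero] at e1
        rcases mul_eq_zero.1 e1 with h1 | h1
        · exfalso
          have : (K (f w₀)).1 = 0 := by exact_mod_cast h1
          omega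
        · exact h1
      obtain ⟨q', hq', hq''⟩ := hne0 w hw.1.2 w' hw'.1.2 hne
      have e6 : X (f w) (f w') = 0 := by
        simp only [X]
        rw [sub_eq_zero.1 e4, sub_eq_zero.1 e5]
        ring
      rw [e6, abs_zero] at hq''
      have := hq'.1
      omega
  have h1 := Finset.card_le_mul_card_image_of_maps_to hmaps 100 hfib
  rw [Finset.card_erase_of_mem hw₀, ← Set.ncard_eq_toFinset_card _ hfin] at h1
  have h2 := Finset.card_pos.2 ⟨w₀, hw₀⟩
  omega

/-! ### The theorem -/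

/-- the digits of a word -/
private def word (w : List (Fin 5) × List (Fin 3)) : List ℕ :=
  w.1.flatMap tok ++ (w.2.map dg ++ [2])

private theorem word_bounds (w : List (Fin 5) × List (Fin 3)) {y R : ℝ}
    (h1 : Inv (w.1.foldl st (1, 0))) (h2 : F (w.1.foldl st (1, 0)) ≤ y)
    (h3 : y ≤ 203 / 20 * F (w.1.foldl st (1, 0)))
    (h4 : ((K (w.2.map dg ++ [2])).1 : ℝ) ≤ R)
    (h5 : R ≤ 7 / 2 * ((K (w.2.map dg ++ [2])).1 : ℝ)) :
    ((K (word w)).1 : ℝ) ≤ 3 / 5 * (y * R) ∧ 3 / 5 * (y * R) < 50 * ((K (word w)).1 : ℝ) := by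
  obtain ⟨i1, i2, i3⟩ := h1.real
  obtain ⟨-, r1, r2⟩ := ratio (w.2.map dg) (dig_dg w.2)
  have r0 := (ratio (w.2.map dg) (dig_dg w.2)).1
  have e : ((K (word w)).1 : ℝ) = (w.1.foldl st (1, 0)).1 * (K (w.2.map dg ++ [2])).1 +
      (w.1.foldl st (1, 0)).2 * (K (w.2.map dg ++ [2])).2 := by
    rw [← val_one, word, ← val_foldl, val]
    push_cast
    rfl
  rw [e]
  have g1 : ((K (w.2.map dg ++ [2])).1 : ℝ) ≤ 4 * (K (w.2.map dg ++ [2])).2 := by
    exact_mod_cast r1
  have g2 : 5 * ((K (w.2.map dg ++ [2])).2 : ℝ) ≤ 4 * (K (w.2.map dg ++ [2])).1 := by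
    exact_mod_cast r2
  have g0 : (1 : ℝ) ≤ (K (w.2.map dg ++ [2])).1 := by exact_mod_cast r0
  simp only [F] at h2 h3
  generalize ((w.1.foldl st (1, 0)).1 : ℝ) = q at *
  generalize ((w.1.foldl st (1, 0)).2 : ℝ) = q' at *
  generalize ((K (w.2.map dg ++ [2])).1 : ℝ) = u at *
  generalize ((K (w.2.map dg ++ [2])).2 : ℝ) = v at *
  have m1 : q * u + q' * v ≤ 3 / 5 * ((2 * q + q') * u) := by
    have a1 : q' * (5 * v) ≤ q' * (4 * u) := mul_le_mul_of_nonneg_left g2 i2
    have a2 : (5 * q') * u ≤ (4 * q) * u := mul_le_mul_of_nonneg_right i3 (by linarith)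
    nlinarith [mul_nonneg (by linarith : (0 : ℝ) ≤ q) (by linarith : (0 : ℝ) ≤ u)]
  have m2 : 3 / 7 * ((2 * q + q') * u) ≤ q * u + q' * v := by
    have a1 : q' * u ≤ q' * (4 * v) := mul_le_mul_of_nonneg_left g1 i2
    have a2 : (5 * q') * u ≤ (4 * q) * u := mul_le_mul_of_nonneg_right i3 (by linarith)
    nlinarith [mul_nonneg (by linarith : (0 : ℝ) ≤ q) (by linarith : (0 : ℝ) ≤ u)]
  have m3 : (2 * q + q') * u ≤ y * R := mul_le_mul h2 h4 (by linarith) (by linarith)
  have m4 : y * R ≤ (203 / 20 * (2 * q + q')) * (7 / 2 * u) :=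
    mul_le_mul h3 h5 (by linarith) (by linarith)
  have m5 : 0 < (2 * q + q') * u := mul_pos (by linarith) (by linarith)
  constructor
  · linarith
  · nlinarith

private theorem numeric {A B : ℝ} (hA : A = 250000 / 36717219) (hB : B = 9 / 245) :
    1 / 81 < A ^ (5 / 12 : ℝ) * B ^ (7 / 10 : ℝ) := by
  have hA0 : 0 ≤ A := by rw [hA]; norm_num
  have hB0 : 0 ≤ B := by rw [hB]; norm_num
  have h1 : A ^ (5 / 12 : ℝ) = (A ^ 25) ^ (1 / 60 : ℝ) := by
    rw [← Real.rpow_natCast, ← Real.rpow_mul hA0]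
    norm_num
  have h2 : B ^ (7 / 10 : ℝ) = (B ^ 42) ^ (1 / 60 : ℝ) := by
    rw [← Real.rpow_natCast, ← Real.rpow_mul hB0]
    norm_num
  have h3 : (1 / 81 : ℝ) = ((1 / 81) ^ 60) ^ (1 / 60 : ℝ) := by
    rw [← Real.rpow_natCast, ← Real.rpow_mul (by norm_num)]
    norm_num
  rw [h1, h2, ← Real.mul_rpow (by positivity) (by positivity), h3]
  refine Real.rpow_lt_rpow (by positivity) ?_ (by norm_num)
  rw [hA, hB]
  norm_num

/-- Every `d ≥ 1` has a multiple `q ≤ (81 σ(d)) ^ (12 / 5) / d ^ (17 / 25)` in `D 3`, where `σ(d)`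
is the sum of the divisors of `d`, and there are more than
`(N ^ (5 / 12) * d ^ (17 / 60) / (81 σ(d)) - 1) / 100` multiples of `d` up to `N` in `D 3`. -/
theorem result (d : ℕ) (hd : 1 ≤ d) :
    (∃ q ∈ D 3, d ∣ q ∧
      (q : ℝ) ≤ (81 * (ArithmeticFunction.sigma 1 d : ℝ)) ^ (12 / 5 : ℝ) /
        (d : ℝ) ^ (17 / 25 : ℝ)) ∧
    ∀ N : ℝ, 0 < N → N ^ (5 / 12 : ℝ) * (d : ℝ) ^ (17 / 60 : ℝ) <
      81 * (ArithmeticFunction.sigma 1 d : ℝ) *
        (1 + 100 * ({q : ℕ | q ∈ D 3 ∧ d ∣ q ∧ (q : ℝ) ≤ N}.ncard : ℝ)) := by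
  have hd1 : (1 : ℝ) ≤ d := by exact_mod_cast hd
  have hsd : (d : ℝ) ≤ (ArithmeticFunction.sigma 1 d : ℝ) := by
    have h1 : d ≤ ArithmeticFunction.sigma 1 d := by
      rw [ArithmeticFunction.sigma_one_apply]
      exact Finset.single_le_sum (f := fun i : ℕ => i) (fun i _ => Nat.zero_le i)
        (Nat.mem_divisors_self d (by omega))
    exact_mod_cast h1
  have hs1 : (1 : ℝ) ≤ (ArithmeticFunction.sigma 1 d : ℝ) := hd1.trans hsd
  have key : ∀ N : ℝ, 0 < N → N ^ (5 / 12 : ℝ) * (d : ℝ) ^ (17 / 60 : ℝ) <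
      81 * (ArithmeticFunction.sigma 1 d : ℝ) *
        (1 + 100 * ({q : ℕ | q ∈ D 3 ∧ d ∣ q ∧ (q : ℝ) ≤ N}.ncard : ℝ)) := by
    intro N hN
    have hn0 : (0 : ℝ) ≤ ({q : ℕ | q ∈ D 3 ∧ d ∣ q ∧ (q : ℝ) ≤ N}.ncard : ℝ) :=
      Nat.cast_nonneg _
    obtain ⟨B, R, hR2, hR4, hB1, hB2, hB3⟩ := bottoms d hd
    have hR0 : 0 < R := by linarith
    set y : ℝ := √(500 / 99 * N) / R with hy
    have hyR : (y * R) ^ 2 = 500 / 99 * N := by
      rw [hy, div_mul_cancel₀ _ hR0.ne']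
      exact Real.sq_sqrt (by positivity)
    have hy0 : 0 ≤ y := by positivity
    by_cases hy2 : y < 2
    · have h1 : N < 4 * d := by
        have h2 : (y * R) ^ 2 < 4 * (4 * d) := by
          rw [mul_pow]
          have h3 : y ^ 2 < 4 := by nlinarith
          calc y ^ 2 * R ^ 2 < 4 * R ^ 2 := mul_lt_mul_of_pos_right h3 (by positivity)
            _ ≤ 4 * (4 * d) := by linarith
        rw [hyR] at h2
        linarith
      have h2 : N ^ (5 / 12 : ℝ) ≤ (4 * d : ℝ) ^ (5 / 12 : ℝ) :=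
        Real.rpow_le_rpow hN.le h1.le (by norm_num)
      have h3 : (d : ℝ) ^ (17 / 60 : ℝ) ≤ (4 * d : ℝ) ^ (17 / 60 : ℝ) :=
        Real.rpow_le_rpow (by positivity) (by linarith) (by norm_num)
      have h4 : (4 * d : ℝ) ^ (5 / 12 : ℝ) * (4 * d : ℝ) ^ (17 / 60 : ℝ) ≤ 4 * d := by
        rw [← Real.rpow_add (by positivity)]
        calc (4 * d : ℝ) ^ (5 / 12 + 17 / 60 : ℝ) ≤ (4 * d : ℝ) ^ (1 : ℝ) :=
              Real.rpow_le_rpow_of_exponent_le (by linarith) (by norm_num)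
          _ = 4 * d := Real.rpow_one _
      have h5 : N ^ (5 / 12 : ℝ) * (d : ℝ) ^ (17 / 60 : ℝ) ≤
          (4 * d : ℝ) ^ (5 / 12 : ℝ) * (4 * d : ℝ) ^ (17 / 60 : ℝ) :=
        mul_le_mul h2 h3 (by positivity) (by positivity)
      have h6 : 0 ≤ (ArithmeticFunction.sigma 1 d : ℝ) *
          ({q : ℕ | q ∈ D 3 ∧ d ∣ q ∧ (q : ℝ) ≤ N}.ncard : ℝ) := by positivity
      nlinarith
    · push Not at hy2
      obtain ⟨S, hS1, hS2, hS3⟩ := tops y hy2
      obtain ⟨Φ, hΦ1, hΦ2, hΦ3⟩ := pigeon d (by omega) (S ×ˢ B) word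
      have hne0 : ∀ w ∈ Φ, ∀ w' ∈ Φ, w ≠ w' → ∃ q ∈ D 3, (q : ℤ) = |X (word w) (word w')| := by
        rintro ⟨w, b⟩ hw ⟨w', b'⟩ hw' hne
        have m1 := hΦ1 hw
        have m2 := hΦ1 hw'
        rw [Finset.mem_product] at m1 m2
        simp only at m1 m2
        have hww : w ≠ w' := by
          rintro rfl
          have hbb : b ≠ b' := fun e => hne (by rw [e])
          refine hB2 b m1.2 b' m2.2 hbb ?_
          have h1 := hΦ3 _ hw _ hw'
          simp only [word] at h1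
          rw [← dvd_abs, X_append, dvd_abs] at h1
          exact h1
        obtain ⟨p, t, t', α, β, htt, rfl, rfl⟩ := hS1 w m1.1 w' m2.1 hww
        exact branch p t t' htt α β _ _ (dig_dg b) (dig_dg b')
      have h1 := card_class d (3 / 5 * (y * R)) Φ word
        (fun w _ => ⟨w.1.flatMap tok ++ w.2.map dg, (dig_tok w.1).append (dig_dg w.2), by
          simp [word]⟩) hne0
        (fun w hw => by
          have m1 := hΦ1 hw
          rw [Finset.mem_product] at m1
          obtain ⟨s1, s2, s3⟩ := hS2 w.1 m1.1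
          obtain ⟨b1, b2⟩ := hB1 w.2 m1.2
          exact word_bounds w s1 s2 s3 b1 b2) hΦ3 N (by
            rw [mul_pow, hyR]
            linarith)
      have h2 : (Φ.card : ℝ) ≤ 1 + 100 *
          ({q : ℕ | q ∈ D 3 ∧ d ∣ q ∧ (q : ℝ) ≤ N}.ncard : ℝ) := by
        exact_mod_cast h1
      have h3 : (y / (203 / 10)) ^ (5 / 6 : ℝ) =
          (250000 / 36717219 * (N / d)) ^ (5 / 12 : ℝ) *
            (9 / 5 * (d : ℝ) / R ^ 2) ^ (5 / 12 : ℝ) := by
        have h4 : (0 : ℝ) ≤ y / (203 / 10) := by positivity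
        have h5 : (y / (203 / 10)) ^ (5 / 6 : ℝ) = ((y / (203 / 10)) ^ 2) ^ (5 / 12 : ℝ) := by
          rw [← Real.rpow_natCast, ← Real.rpow_mul h4]
          norm_num
        rw [h5, ← Real.mul_rpow (by positivity) (by positivity)]
        congr 1
        have h6 : y ^ 2 = 500 / 99 * N / R ^ 2 := by
          rw [← hyR, mul_pow, mul_div_cancel_right₀ _ (by positivity)]
        rw [div_pow, h6]
        field_simp
        norm_num
      have h4 : (y / (203 / 10)) ^ (5 / 6 : ℝ) * B.card ≤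
          (ArithmeticFunction.sigma 1 d : ℝ) *
            (1 + 100 * ({q : ℕ | q ∈ D 3 ∧ d ∣ q ∧ (q : ℝ) ≤ N}.ncard : ℝ)) := by
        calc (y / (203 / 10)) ^ (5 / 6 : ℝ) * B.card ≤ (S.card : ℝ) * B.card :=
              mul_le_mul_of_nonneg_right hS3 (Nat.cast_nonneg _)
          _ = ((S ×ˢ B).card : ℝ) := by rw [Finset.card_product]; push_cast; rfl
          _ ≤ (ArithmeticFunction.sigma 1 d : ℝ) * Φ.card := hΦ2
          _ ≤ _ := mul_le_mul_of_nonneg_left h2 (by linarith)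
      have h5 : (250000 / 36717219 * (N / d)) ^ (5 / 12 : ℝ) *
          (9 / 245 * (d : ℝ)) ^ (7 / 10 : ℝ) ≤ (y / (203 / 10)) ^ (5 / 6 : ℝ) * B.card := by
        rw [h3, mul_assoc]
        exact mul_le_mul_of_nonneg_left hB3 (by positivity)
      have h6 : (250000 / 36717219 * (N / d)) ^ (5 / 12 : ℝ) *
          (9 / 245 * (d : ℝ)) ^ (7 / 10 : ℝ) =
          ((250000 / 36717219 : ℝ) ^ (5 / 12 : ℝ) * (9 / 245 : ℝ) ^ (7 / 10 : ℝ)) *
            (N ^ (5 / 12 : ℝ) * (d : ℝ) ^ (17 / 60 : ℝ)) := by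
        have h7 : (d : ℝ) ^ (7 / 10 : ℝ) = (d : ℝ) ^ (5 / 12 : ℝ) * (d : ℝ) ^ (17 / 60 : ℝ) := by
          rw [← Real.rpow_add (by positivity)]
          norm_num
        have h8 : (0 : ℝ) < (d : ℝ) ^ (5 / 12 : ℝ) := by positivity
        rw [Real.mul_rpow (by norm_num) (by positivity), Real.mul_rpow (by norm_num) (by positivity),
          Real.div_rpow hN.le (by positivity), h7]
        field_simp
      have h7 := numeric rfl rfl
      have h8 : 0 < N ^ (5 / 12 : ℝ) * (d : ℝ) ^ (17 / 60 : ℝ) := by positivity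
      have h9 : 1 / 81 * (N ^ (5 / 12 : ℝ) * (d : ℝ) ^ (17 / 60 : ℝ)) <
          ((250000 / 36717219 : ℝ) ^ (5 / 12 : ℝ) * (9 / 245 : ℝ) ^ (7 / 10 : ℝ)) *
            (N ^ (5 / 12 : ℝ) * (d : ℝ) ^ (17 / 60 : ℝ)) :=
        mul_lt_mul_of_pos_right h7 h8
      rw [← h6] at h9
      linarith
  refine ⟨?_, key⟩
  have hs0 : (0 : ℝ) < (ArithmeticFunction.sigma 1 d : ℝ) := by linarith
  have hd0 : (0 : ℝ) < d := by linarith
  have h1 := key ((81 * (ArithmeticFunction.sigma 1 d : ℝ)) ^ (12 / 5 : ℝ) /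
    (d : ℝ) ^ (17 / 25 : ℝ)) (by positivity)
  have h2 : ((81 * (ArithmeticFunction.sigma 1 d : ℝ)) ^ (12 / 5 : ℝ) /
      (d : ℝ) ^ (17 / 25 : ℝ)) ^ (5 / 12 : ℝ) * (d : ℝ) ^ (17 / 60 : ℝ) =
      81 * (ArithmeticFunction.sigma 1 d : ℝ) := by
    rw [Real.div_rpow (by positivity) (by positivity), ← Real.rpow_mul (by positivity),
      ← Real.rpow_mul (by positivity)]
    norm_num
    exact div_mul_cancel₀ _ (by positivity)
  rw [h2] at h1
  by_contra hcon
  have h3 : {q : ℕ | q ∈ D 3 ∧ d ∣ q ∧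
      (q : ℝ) ≤ (81 * (ArithmeticFunction.sigma 1 d : ℝ)) ^ (12 / 5 : ℝ) /
        (d : ℝ) ^ (17 / 25 : ℝ)} = ∅ := by
    rw [Set.eq_empty_iff_forall_notMem]
    rintro q ⟨h4, h5, h6⟩
    exact hcon ⟨q, h4, h5, h6⟩
  rw [h3, Set.ncard_empty, Nat.cast_zero, mul_zero, add_zero, mul_one] at h1
  exact lt_irrefl _ h1

end Pool.Agent.Results.MP_28c842_nt.Multiples
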