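import Pool.Agent.LibZE10.Y8

set_option autoImplicit false

namespace Pool.Agent.Results.MP_28c842_nt.ShortIntervals

/-- The value of the continued fraction `[a_1, ..., a_k]`. -/
def cf : List ℕ → ℚ
  | [] => 0
  | a :: l => 1 / ((a : ℚ) + cf l)

/-- The set of the `b` with `1 ≤ b < d`, prime to `d`, for which `b / d = [a_1, ..., a_k]` with all
`a_j` in `A` and with `a_k ≥ 2`. -/
def num (A : Finset ℕ) (d : ℕ) : Set ℕ :=
  {b | 1 ≤ b ∧ b < d ∧ b.Coprime d ∧ ∃ (l : List ℕ) (h : l ≠ []),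
    (∀ x ∈ l, x ∈ A) ∧ 2 ≤ l.getLast h ∧ (b : ℚ) / d = cf l}

/-- The set of the integers `d ≥ 2` for which some `b` with `1 ≤ b < d`, prime to `d`, has
`b / d = [a_1, ..., a_k]` with all `a_j` in `A` and with `a_k ≥ 2`. -/
def D (A : Finset ℕ) : Set ℕ := {d | 2 ≤ d ∧ (num A d).Nonempty}

/-- The Gauss map: the fractional part of `1 / x`. -/
noncomputable def gauss (x : ℝ) : ℝ := Int.fract x⁻¹

/-- The set of the irrational numbers in `(0, 1)` all of whose partial quotients are in `A`; the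
`(n + 1)`-st partial quotient of `x` is the integer part of `1 / gauss^[n] x`. -/
def E (A : Finset ℕ) : Set ℝ :=
  {x | 0 < x ∧ x < 1 ∧ Irrational x ∧ ∀ n : ℕ, ∃ k ∈ A, ⌊(gauss^[n] x)⁻¹⌋ = (k : ℤ)}

/-- The set of the integers `n` for which some `d` in `D A` has `|d - n| ≤ n ^ θ`. -/
def near (A : Finset ℕ) (θ : ℝ) : Set ℕ := {n | ∃ d ∈ D A, |(d : ℝ) - n| ≤ (n : ℝ) ^ θ}

/-- The set of the pairs `(d, b)` with `|d - n| ≤ n ^ θ` and `b` in `num A d`. -/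
def fracs (A : Finset ℕ) (θ : ℝ) (n : ℕ) : Set (ℕ × ℕ) :=
  {p | |(p.1 : ℝ) - n| ≤ (n : ℝ) ^ θ ∧ p.2 ∈ num A p.1}

private theorem cf_eq (l : List ℕ) : cf l = Pool.Agent.LibNW69.cf l := by
  induction l with
  | nil => rfl
  | cons a l ih => simp only [cf, Pool.Agent.LibNW69.cf, ih]

private theorem num_eq (A : Finset ℕ) (d : ℕ) : num A d = Pool.Agent.LibZE10.numer A d := by
  ext b
  simp only [num, Pool.Agent.LibZE10.numer, cf_eq]

private theorem D_eq (A : Finset ℕ) : D A = Pool.Agent.LibNW69.D A := by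
  ext d
  simp only [D, num, Pool.Agent.LibNW69.D, Set.Nonempty, Set.mem_setOf_eq, cf_eq]

private theorem E_eq (A : Finset ℕ) : E A = Pool.Agent.LibNW69.E A := rfl

private theorem near_eq (A : Finset ℕ) (θ : ℝ) : near A θ = Pool.Agent.LibZE10.near A θ := by
  simp only [near, Pool.Agent.LibZE10.near, D_eq]

private theorem fracs_eq (A : Finset ℕ) (θ : ℝ) (n : ℕ) :
    fracs A θ n = Pool.Agent.LibZE10.fracs A θ n := by
  simp only [fracs, Pool.Agent.LibZE10.fracs, num_eq]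

/-- Let `A` be a finite set of positive integers which contains `1` and `2` and for which the
Hausdorff dimension `δ` of `E A` is larger than `2 / 3`, and let `θ > (1 - δ) / (3 δ - 1)`. Then almost
all integers `n` have an element of `D A` at distance at most `n ^ θ`. If `θ < 1`, then for every
`ε > 0` there is `c > 0` such that for all large `N` at least `(1 - ε) N` of the `n ≤ N` have at least
`c n ^ (θ + 2 δ - 1)` fractions `b / d` with `|d - n| ≤ n ^ θ` and with all partial quotients in `A`.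
For `A = {1, 2, 3}` this holds with `θ = 53 / 200` and with `c n ^ (27 / 40)` fractions. -/
theorem result :
    (∀ A : Finset ℕ, (∀ x ∈ A, 1 ≤ x) → 1 ∈ A → 2 ∈ A → 2 / 3 < dimH (E A) → ∀ θ : ℝ,
      (1 - (dimH (E A)).toReal) / (3 * (dimH (E A)).toReal - 1) < θ →
      Filter.Tendsto (fun N : ℕ => ({n : ℕ | n ≤ N ∧ n ∈ near A θ}.ncard : ℝ) / N) Filter.atTop
        (nhds 1) ∧
      (θ < 1 → ∀ ε : ℝ, 0 < ε → ∃ c : ℝ, 0 < c ∧ ∃ N₀ : ℕ, ∀ N : ℕ, N₀ ≤ N →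
        (1 - ε) * N ≤ ({n : ℕ | 1 ≤ n ∧ n ≤ N ∧
          c * (n : ℝ) ^ (θ + 2 * (dimH (E A)).toReal - 1) ≤
            ((fracs A θ n).ncard : ℝ)}.ncard : ℝ))) ∧
    Filter.Tendsto
      (fun N : ℕ => ({n : ℕ | n ≤ N ∧ n ∈ near {1, 2, 3} (53 / 200)}.ncard : ℝ) / N)
      Filter.atTop (nhds 1) ∧
    ∀ ε : ℝ, 0 < ε → ∃ c : ℝ, 0 < c ∧ ∃ N₀ : ℕ, ∀ N : ℕ, N₀ ≤ N →
      (1 - ε) * N ≤ ({n : ℕ | 1 ≤ n ∧ n ≤ N ∧
        c * (n : ℝ) ^ (27 / 40 : ℝ) ≤ ((fracs {1, 2, 3} (53 / 200) n).ncard : ℝ)}.ncard : ℝ) := by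
  refine ⟨fun A hA h1 h2 h θ hθ => ⟨?_, fun hθ1 ε hε => ?_⟩, ?_, fun ε hε => ?_⟩
  · rw [E_eq] at h hθ
    rw [near_eq]
    exact Pool.Agent.LibZE10.main_dim A hA h1 h2 h θ hθ
  · rw [E_eq] at h hθ
    obtain ⟨c, hc, N₀, h0⟩ := Pool.Agent.LibZE10.main_dim2 A hA h1 h2 h θ hθ hθ1 ε hε
    refine ⟨c, hc, N₀, fun N hN => ?_⟩
    have h3 := h0 N hN
    simp only [← fracs_eq, ← E_eq] at h3
    exact h3
  · rw [near_eq]
    exact Pool.Agent.LibZE10.main_three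
  · obtain ⟨c, hc, N₀, h0⟩ := Pool.Agent.LibZE10.main_three2 ε hε
    refine ⟨c, hc, N₀, fun N hN => ?_⟩
    have h3 := h0 N hN
    simp only [← fracs_eq] at h3
    exact h3

end Pool.Agent.Results.MP_28c842_nt.ShortIntervals
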